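import Pool.Agent.Helper71.LOC.Defs

/-! Reals which are read off a slalom step by step: the definitions. -/

set_option autoImplicit false

namespace Pool.Agent.Helper71.LOC

/-- the first `j` digits of the real computed from `S`: after the digits `s` comes the digit
`φ s S` -/
def pre (φ : List ℕ → (ℕ → Finset ℕ) → ℕ) (S : ℕ → Finset ℕ) : ℕ → List ℕ
  | 0 => []
  | j + 1 => pre φ S j ++ [φ (pre φ S j) S]

/-- the real computed from `S`: its digit number `j` -/
def dig (φ : List ℕ → (ℕ → Finset ℕ) → ℕ) (S : ℕ → Finset ℕ) (j : ℕ) : ℕ := φ (pre φ S j) S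

/-- `S` is a slalom through the condition `q`: its first values are the stem of `q` and it captures
the functions of `q` after the stem -/
def Thr (q : Cond) (S : ℕ → Finset ℕ) : Prop :=
  (∀ n, (S n).card ≤ n) ∧ (∀ n < q.len, S n = q.s n) ∧ ∀ x ∈ q.F, ∀ n, q.len ≤ n → x n ∈ S n

end Pool.Agent.Helper71.LOC
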