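import Pool.Agent.Helper71.LOC.Main
import Pool.Agent.Helper71.LOC.AdaptDefs

/-! Reals which are read off the generic slalom step by step, the next digit depending on the
previous digits and on the slalom over the next window. -/

set_option autoImplicit false

namespace Pool.Agent.Helper71.LOC

/-- the digit after `s` depends on `S` only over the window number `s.length`, which is
`[k s.length, k (s.length + 1))` -/
def Reads (k : ℕ → ℕ) (φ : List ℕ → (ℕ → Finset ℕ) → ℕ) : Prop :=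
  ∀ s S S', (∀ n, k s.length ≤ n → n < k (s.length + 1) → S n = S' n) → φ s S = φ s S'

theorem pre_length (φ : List ℕ → (ℕ → Finset ℕ) → ℕ) (S : ℕ → Finset ℕ) (j : ℕ) :
    (pre φ S j).length = j := by
  induction j with
  | zero => rfl
  | succ j ih => rw [pre, List.length_append, ih]; rfl

theorem pre_eq (φ : List ℕ → (ℕ → Finset ℕ) → ℕ) (S : ℕ → Finset ℕ) (j : ℕ) :
    (List.range j).map (dig φ S) = pre φ S j := by
  induction j with
  | zero => rfl
  | succ j ih =>
    rw [List.range_succ, List.map_append, ih]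
    rfl

theorem px_congr {x y : ℕ → ℕ} {j : ℕ} (h : ∀ i < j, x i = y i) :
    (List.range j).map x = (List.range j).map y :=
  List.map_congr_left fun i hi => h i (List.mem_range.1 hi)

theorem px_inj {x y : ℕ → ℕ} {j : ℕ} (h : (List.range j).map x = (List.range j).map y) :
    ∀ i < j, x i = y i := by
  intro i hi
  exact List.map_inj_left.1 h i (List.mem_range.2 hi)

theorem pre_congr {k : ℕ → ℕ} (hk : StrictMono k) {φ : List ℕ → (ℕ → Finset ℕ) → ℕ}
    (hφ : Reads k φ) {S S' : ℕ → Finset ℕ} (j : ℕ) (h : ∀ n < k j, S n = S' n) :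
    pre φ S j = pre φ S' j := by
  induction j with
  | zero => rfl
  | succ j ih =>
    have h1 := ih fun n hn => h n (hn.trans (hk (Nat.lt_succ_self j)))
    rw [pre, pre, h1, hφ (pre φ S' j) S S' fun n _ hn => h n (by rwa [pre_length] at hn)]

theorem dig_congr {k : ℕ → ℕ} (hk : StrictMono k) {φ : List ℕ → (ℕ → Finset ℕ) → ℕ}
    (hφ : Reads k φ) {S S' : ℕ → Finset ℕ} (j : ℕ) (h : ∀ n < k j, S n = S' n) :
    ∀ i < j, dig φ S i = dig φ S' i := by
  refine px_inj ?_
  rw [pre_eq, pre_eq, pre_congr hk hφ j h]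

/-- the possible digits after `s` for slaloms which capture `G` over the window -/
def Pos (k : ℕ → ℕ) (φ : List ℕ → (ℕ → Finset ℕ) → ℕ) (s : List ℕ) (G : Finset (ℕ → ℕ)) : Set ℕ :=
  {a | ∃ S : ℕ → Finset ℕ, (∀ n, (S n).card ≤ n) ∧
    (∀ f ∈ G, ∀ n, k s.length ≤ n → n < k (s.length + 1) → f n ∈ S n) ∧ φ s S = a}

theorem Pos_anti {k : ℕ → ℕ} {φ : List ℕ → (ℕ → Finset ℕ) → ℕ} {s : List ℕ}
    {G G' : Finset (ℕ → ℕ)} (h : G ⊆ G') : Pos k φ s G' ⊆ Pos k φ s G := by
  rintro a ⟨S, h1, h2, h3⟩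
  exact ⟨S, h1, fun f hf => h2 f (h hf), h3⟩

/-- `K` functions cannot decide the digit after `s` -/
def NKA (k : ℕ → ℕ) (φ : List ℕ → (ℕ → Finset ℕ) → ℕ) (s : List ℕ) (K : ℕ) : Prop :=
  K ≤ k s.length ∧ ∀ G : Finset (ℕ → ℕ), G.card ≤ K → ∀ a, ∃ b ∈ Pos k φ s G, b ≠ a

theorem bern (A : ℕ → Set ℕ) (hA : ∀ i, (A i).Infinite) :
    ∃ χ : ℕ → Bool, ∀ i b, ∃ x ∈ A i, χ x = b := by
  classical
  obtain ⟨f, hf, hf2⟩ := pick (fun j i => j ∈ A (i / 2)) (fun i m => by
    obtain ⟨x, hx, hxm⟩ := (hA (i / 2)).exists_gt m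
    exact ⟨x, hxm.le, hx⟩)
  refine ⟨fun x => decide (∃ i, x = f (2 * i)), fun i b => ?_⟩
  cases b with
  | false =>
    have h1 := hf2 (2 * i + 1)
    rw [show (2 * i + 1) / 2 = i by omega] at h1
    refine ⟨_, h1, decide_eq_false ?_⟩
    rintro ⟨j, hj⟩
    have := hf.injective hj
    omega
  | true =>
    have h1 := hf2 (2 * i)
    rw [show 2 * i / 2 = i by omega] at h1
    exact ⟨_, h1, decide_eq_true ⟨i, rfl⟩⟩

theorem colour (k : ℕ → ℕ) (φ : List ℕ → (ℕ → Finset ℕ) → ℕ) (s : List ℕ) (i : ℕ)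
    (h : NKA k φ s (3 * i)) :
    ∃ χ : ℕ → Bool, ∀ G : Finset (ℕ → ℕ), G.card ≤ i → ∀ b, ∃ x ∈ Pos k φ s G, χ x = b := by
  classical
  by_cases hfin : ∃ G : Finset (ℕ → ℕ), G.card ≤ i ∧ (Pos k φ s G).Finite
  · obtain ⟨G₀, hG₀, hA⟩ := hfin
    obtain ⟨ψ, hψ⟩ := lovasz hA.toFinset
      {X | ∃ G : Finset (ℕ → ℕ), G.card ≤ i ∧ X = Pos k φ s G ∩ Pos k φ s G₀} (by
        rintro X ⟨G, hG, rfl⟩ Y ⟨G', hG', rfl⟩ v
        have hc : (G ∪ G' ∪ G₀).card ≤ 3 * i := by
          have h1 := Finset.card_union_le (G ∪ G') G₀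
          have h2 := Finset.card_union_le G G'
          omega
        obtain ⟨z, hz, hzv⟩ := h.2 (G ∪ G' ∪ G₀) hc v
        have a1 : G ⊆ G ∪ G' ∪ G₀ := by
          intro x hx
          simp [hx]
        have a2 : G' ⊆ G ∪ G' ∪ G₀ := by
          intro x hx
          simp [hx]
        have a3 : G₀ ⊆ G ∪ G' ∪ G₀ := by
          intro x hx
          simp [hx]
        exact ⟨z, ⟨Pos_anti a1 hz, Pos_anti a3 hz⟩, ⟨Pos_anti a2 hz, Pos_anti a3 hz⟩, hzv⟩)
    refine ⟨ψ, fun G hG b => ?_⟩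
    obtain ⟨x, hx, hxb⟩ := hψ _ ⟨G, hG, rfl⟩ (fun x hx => by
      rw [Set.Finite.mem_toFinset]
      exact hx.2) b
    exact ⟨x, hx.1, hxb⟩
  · push Not at hfin
    have hcount : {X | ∃ G : Finset (ℕ → ℕ), G.card ≤ i ∧ X = Pos k φ s G}.Countable := by
      let m := k (s.length + 1)
      let ext : (Fin m → ℕ) → ℕ → ℕ := fun g n => if h : n < m then g ⟨n, h⟩ else 0
      refine (Set.countable_range fun t : Finset (Fin m → ℕ) => Pos k φ s (t.image ext)).mono ?_
      rintro X ⟨G, -, rfl⟩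
      refine ⟨G.image fun f (i : Fin m) => f i, ?_⟩
      have key : ∀ S : ℕ → Finset ℕ, (∀ f ∈ (G.image fun f (i : Fin m) => f i).image ext,
          ∀ n, k s.length ≤ n → n < k (s.length + 1) → f n ∈ S n) ↔
          (∀ f ∈ G, ∀ n, k s.length ≤ n → n < k (s.length + 1) → f n ∈ S n) := by
        intro S
        constructor
        · intro h1 f hf n h2 h3
          have h4 := h1 (ext fun i => f i) (Finset.mem_image_of_mem _
            (Finset.mem_image_of_mem _ hf)) n h2 h3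
          change (if h : n < m then f n else 0) ∈ S n at h4
          rwa [dif_pos (show n < m from h3)] at h4
        · intro h1 g hg n h2 h3
          obtain ⟨g', hg', rfl⟩ := Finset.mem_image.1 hg
          obtain ⟨f, hf, rfl⟩ := Finset.mem_image.1 hg'
          change (if h : n < m then f n else 0) ∈ S n
          rw [dif_pos (show n < m from h3)]
          exact h1 f hf n h2 h3
      ext a
      constructor
      · rintro ⟨S, h1, h2, h3⟩
        exact ⟨S, h1, (key S).1 h2, h3⟩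
      · rintro ⟨S, h1, h2, h3⟩
        exact ⟨S, h1, (key S).2 h2, h3⟩
    obtain ⟨A, hA⟩ := hcount.exists_eq_range ⟨_, ∅, by simp, rfl⟩
    have hinf : ∀ n, (A n).Infinite := by
      intro n
      have h1 : A n ∈ Set.range A := ⟨n, rfl⟩
      rw [← hA] at h1
      obtain ⟨G, hG, h2⟩ := h1
      rw [h2]
      exact hfin G hG
    obtain ⟨χ, hχ⟩ := bern A hinf
    refine ⟨χ, fun G hG b => ?_⟩
    have h1 : Pos k φ s G ∈ Set.range A := by
      rw [← hA]
      exact ⟨G, hG, rfl⟩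
    obtain ⟨n, hn⟩ := h1
    rw [← hn]
    exact hχ n b

open Classical in
/-- a colouring -/
noncomputable def chi (k : ℕ → ℕ) (φ : List ℕ → (ℕ → Finset ℕ) → ℕ) (s : List ℕ) (i : ℕ) :
    ℕ → Bool :=
  if h : ∃ χ : ℕ → Bool, ∀ G : Finset (ℕ → ℕ), G.card ≤ i → ∀ b, ∃ x ∈ Pos k φ s G, χ x = b then
    h.choose else fun _ => false

theorem chi_spec (k : ℕ → ℕ) (φ : List ℕ → (ℕ → Finset ℕ) → ℕ) (s : List ℕ) (i : ℕ)
    (h : NKA k φ s (3 * i)) (G : Finset (ℕ → ℕ)) (hG : G.card ≤ i) (b : Bool) :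
    ∃ x ∈ Pos k φ s G, chi k φ s i x = b := by
  have h1 := colour k φ s i h
  unfold chi
  rw [dif_pos h1]
  exact h1.choose_spec G hG b

open Classical in
/-- the bits read off the first `j` digits of `x` -/
noncomputable def bits (k : ℕ → ℕ) (φ : List ℕ → (ℕ → Finset ℕ) → ℕ) (x : ℕ → ℕ) : ℕ → List Bool
  | 0 => []
  | j + 1 => if NKA k φ ((List.range j).map x) (3 * (bits k φ x j).length) then
      bits k φ x j ++ [chi k φ ((List.range j).map x) (bits k φ x j).length (x j)]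
      else bits k φ x j

theorem bits_congr {k : ℕ → ℕ} {φ : List ℕ → (ℕ → Finset ℕ) → ℕ} {x y : ℕ → ℕ} (j : ℕ)
    (h : ∀ i < j, x i = y i) : bits k φ x j = bits k φ y j := by
  induction j with
  | zero => rfl
  | succ j ih =>
    have h1 := ih fun i hi => h i (by omega)
    have h2 := px_congr (x := x) (y := y) (j := j) fun i hi => h i (by omega)
    rw [bits, bits, h1, h2, h j (by omega)]

theorem bits_prefix {k : ℕ → ℕ} {φ : List ℕ → (ℕ → Finset ℕ) → ℕ} {x : ℕ → ℕ} {i j : ℕ}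
    (h : i ≤ j) : bits k φ x i <+: bits k φ x j := by
  induction j, h using Nat.le_induction with
  | base => exact List.prefix_rfl
  | succ j _ ih =>
    refine ih.trans ?_
    rw [bits]
    split_ifs with h1
    · exact List.prefix_append _ _
    · exact List.prefix_rfl

open Classical in
/-- the Cohen real computed from `x` -/
noncomputable def coh (k : ℕ → ℕ) (φ : List ℕ → (ℕ → Finset ℕ) → ℕ) (x : ℕ → ℕ) (i : ℕ) : Bool :=
  decide (∃ j, (bits k φ x j)[i]? = some true)

theorem coh_eq {k : ℕ → ℕ} {φ : List ℕ → (ℕ → Finset ℕ) → ℕ} {x : ℕ → ℕ} {j : ℕ}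
    {σ : List Bool} (h : bits k φ x j = σ) (i : ℕ) (hi : i < σ.length) :
    σ[i] = coh k φ x i := by
  classical
  have key : ∀ j', (bits k φ x j')[i]? = some true → σ[i] = true := by
    intro j' hj'
    obtain ⟨h1, h2⟩ := List.getElem?_eq_some_iff.1 hj'
    rcases le_total j j' with h3 | h3
    · have h4 := bits_prefix (k := k) (φ := φ) (x := x) h3
      rw [h] at h4
      rw [← h2]
      exact h4.getElem hi
    · have h4 := bits_prefix (k := k) (φ := φ) (x := x) h3
      rw [h] at h4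
      rw [← h2]
      exact (h4.getElem h1).symm
  unfold coh
  cases hσ : σ[i] with
  | true =>
    refine (decide_eq_true ⟨j, ?_⟩).symm
    rw [h, List.getElem?_eq_getElem hi, hσ]
  | false =>
    refine (decide_eq_false ?_).symm
    rintro ⟨j', hj'⟩
    rw [key j' hj'] at hσ
    exact absurd hσ (by decide)

theorem meas_fin (j : ℕ) (Q : (ℕ → ℕ) → Prop) (hQ : ∀ x y, (∀ i < j, x i = y i) → (Q x ↔ Q y)) :
    MeasurableSet {x | Q x} := by
  let g : (ℕ → ℕ) → Fin j → ℕ := fun x i => x i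
  have hg : Measurable g := measurable_pi_lambda _ fun i => measurable_pi_apply _
  let e : (Fin j → ℕ) → ℕ → ℕ := fun y n => if h : n < j then y ⟨n, h⟩ else 0
  have h1 : {x | Q x} = g ⁻¹' {y | Q (e y)} := by
    ext x
    change Q x ↔ Q (e (g x))
    refine hQ _ _ fun i hi => ?_
    change x i = if h : i < j then x i else 0
    rw [dif_pos hi]
  rw [h1]
  exact hg (Set.to_countable _).measurableSet

theorem coh_meas (k : ℕ → ℕ) (φ : List ℕ → (ℕ → Finset ℕ) → ℕ) : Measurable (coh k φ) := by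
  refine measurable_pi_lambda _ fun i => measurable_to_bool ?_
  have h1 : (fun x => coh k φ x i) ⁻¹' {true} =
      ⋃ j, {x | (bits k φ x j)[i]? = some true} := by
    ext x
    simp [coh]
  rw [h1]
  refine MeasurableSet.iUnion fun j => meas_fin j _ fun x y h => ?_
  rw [bits_congr j h]

end Pool.Agent.Helper71.LOC
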