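import Pool.Agent.Helper71.LOC.Adapt

/-! Adaptive windows: the theorem. -/

set_option autoImplicit false

namespace Pool.Agent.Helper71.LOC

variable {k : ℕ → ℕ} {φ : List ℕ → (ℕ → Finset ℕ) → ℕ}

theorem blk (hk : StrictMono k) {a b n : ℕ} (h1 : k a ≤ n) (h2 : n < k (a + 1)) (h3 : k b ≤ n)
    (h4 : n < k (b + 1)) : a = b := by
  have h5 := hk.lt_iff_lt.1 (h1.trans_lt h4)
  have h6 := hk.lt_iff_lt.1 (h3.trans_lt h2)
  omega

/-- `F` functions and a stem -/
theorem mkC_le {p : Cond} {L : ℕ} {g : ℕ → Finset ℕ} {F : Finset (ℕ → ℕ)}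
    (hg : ∀ n < L, (g n).card ≤ n) (hF : F.card ≤ L) (hL : p.len ≤ L)
    (hs : ∀ n < p.len, g n = p.s n) (hpF : p.F ⊆ F)
    (hc : ∀ x ∈ p.F, ∀ n, p.len ≤ n → n < L → x n ∈ g n) : (mkC L g F hg hF).Le p := by
  refine ⟨hL, fun n hn => ?_, hpF, fun x hx n hn hn' => ?_⟩
  · change (if n < L then g n else ∅) = p.s n
    rw [if_pos (hn.trans_le hL)]
    exact hs n hn
  · change x n ∈ (if n < L then g n else ∅)
    rw [if_pos (show n < L from hn')]
    exact hc x hx n hn hn'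

theorem claimA (hk : StrictMono k) (hφ : Reads k φ) (p : Cond)
    (hund : ¬ ∃ q, Cond.Le q p ∧ ∃ x : ℕ → ℕ, ∀ S, Thr q S → dig φ S = x)
    (q : Cond) (hq : q.Le p) (K : ℕ) :
    ∃ q', Cond.Le q' q ∧ ∃ j, q.len ≤ k j ∧ k j ≤ q'.len ∧ NKA k φ (pre φ q'.s j) K := by
  classical
  by_contra hcon
  push Not at hcon
  have hkill : ∀ s : List ℕ, ∃ G : Finset (ℕ → ℕ), G.card ≤ K ∧ ∃ a,
      (K ≤ k s.length → ¬ NKA k φ s K → ∀ b ∈ Pos k φ s G, b = a) := by
    intro s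
    by_cases h : K ≤ k s.length ∧ ¬ NKA k φ s K
    · have h1 := h.2
      unfold NKA at h1
      push Not at h1
      obtain ⟨G, hG, a, ha⟩ := h1 h.1
      exact ⟨G, hG, a, fun _ _ => ha⟩
    · exact ⟨∅, by simp, 0, fun h1 h2 => absurd ⟨h1, h2⟩ h⟩
  choose G hG a ha using hkill
  obtain ⟨j₀, hj₀⟩ : ∃ j₀, j₀ = q.len + K := ⟨_, rfl⟩
  have hkj : ∀ j, j ≤ k j := fun j => hk.id_le j
  let t : ℕ → List ℕ := fun m => Nat.rec (pre φ (ex q) j₀) (fun _ s => s ++ [a s]) m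
  have ht : ∀ m, t (m + 1) = t m ++ [a (t m)] := fun m => rfl
  have htl : ∀ m, (t m).length = j₀ + m := by
    intro m
    induction m with
    | zero => exact pre_length _ _ _
    | succ m ih => rw [ht, List.length_append, ih]; rfl
  let gg : List ℕ → ℕ → (ℕ → ℕ) := fun s b => (G s).toList.getD b (fun _ => 0)
  have hgg : ∀ s, ∀ f ∈ G s, ∃ b < K, gg s b = f := by
    intro s f hf
    obtain ⟨b, hb, hfb⟩ := List.getElem_of_mem (Finset.mem_toList.2 hf)
    refine ⟨b, ?_, ?_⟩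
    · rw [Finset.length_toList] at hb
      exact hb.trans_le (hG s)
    · change (G s).toList.getD b (fun _ => 0) = f
      rw [List.getD_eq_getElem _ _ hb]
      exact hfb
  let hh : ℕ → (ℕ → ℕ) := fun b n =>
    if h : ∃ m, k (j₀ + m) ≤ n ∧ n < k (j₀ + m + 1) then gg (t h.choose) b n else 0
  have hhh : ∀ b m n, k (j₀ + m) ≤ n → n < k (j₀ + m + 1) → hh b n = gg (t m) b n := by
    intro b m n h1 h2
    have h : ∃ m, k (j₀ + m) ≤ n ∧ n < k (j₀ + m + 1) := ⟨m, h1, h2⟩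
    change (if h : ∃ m, k (j₀ + m) ≤ n ∧ n < k (j₀ + m + 1) then gg (t h.choose) b n else 0) = _
    rw [dif_pos h]
    have h3 := blk hk h.choose_spec.1 h.choose_spec.2 h1 h2
    have h4 : h.choose = m := by omega
    rw [h4]
  obtain ⟨F₁, hF₁⟩ : ∃ F₁, F₁ = q.F ∪ (Finset.range K).image hh := ⟨_, rfl⟩
  have hcard : F₁.card ≤ k j₀ := by
    rw [hF₁]
    have h1 := Finset.card_union_le q.F ((Finset.range K).image hh)
    have h2 : ((Finset.range K).image hh).card ≤ (Finset.range K).card := Finset.card_image_le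
    rw [Finset.card_range] at h2
    have h3 := q.card_F
    have h4 := hkj j₀
    omega
  have hlen : q.len ≤ k j₀ := by
    have := hkj j₀
    omega
  have hq₁ := pad_le q (k j₀) F₁ hlen hcard (by rw [hF₁]; exact Finset.subset_union_left)
  obtain ⟨q₁, hq₁e⟩ : ∃ q₁, q₁ = mkC (k j₀) (ex q) F₁ (fun n _ => card_ex q n) hcard := ⟨_, rfl⟩
  rw [← hq₁e] at hq₁
  have hl₁ : q₁.len = k j₀ := by rw [hq₁e]; rfl
  have hF₁' : q₁.F = F₁ := by rw [hq₁e]; rfl
  have hs₁ : ∀ n < k j₀, q₁.s n = ex q n := by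
    intro n hn
    rw [hq₁e]
    change (if n < k j₀ then ex q n else ∅) = _
    rw [if_pos hn]
  have hF : ∀ b < K, hh b ∈ q₁.F := by
    intro b hb
    rw [hF₁', hF₁, Finset.mem_union]
    exact Or.inr (Finset.mem_image.2 ⟨b, Finset.mem_range.2 hb, rfl⟩)
  have main : ∀ S, Thr q₁ S → ∀ m, pre φ S (j₀ + m) = t m := by
    intro S hS m
    induction m with
    | zero =>
      refine pre_congr hk hφ j₀ fun n hn => ?_
      rw [hS.2.1 n (by rw [hl₁]; exact hn), hs₁ n hn]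
    | succ m ih =>
      have hmono : k j₀ ≤ k (j₀ + m) := hk.monotone (Nat.le_add_right _ _)
      have hc1 : (mkC (k (j₀ + m)) S F₁ (fun n _ => hS.1 n) (hcard.trans hmono)).Le q₁ := by
        refine mkC_le _ _ (by rw [hl₁]; exact hmono) (fun n hn => hS.2.1 n hn)
          (by rw [hF₁']) fun x hx n hn _ => hS.2.2 x hx n hn
      have hpre : pre φ (mkC (k (j₀ + m)) S F₁ (fun n _ => hS.1 n) (hcard.trans hmono)).s (j₀ + m)
          = t m := by
        rw [← ih]
        refine pre_congr hk hφ _ fun n hn => ?_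
        change (if n < k (j₀ + m) then S n else ∅) = S n
        rw [if_pos hn]
      have h1 := hcon _ (hc1.trans hq₁) (j₀ + m) (hlen.trans hmono) le_rfl
      rw [hpre] at h1
      have h2 : K ≤ k (t m).length := by
        rw [htl]
        have := hkj (j₀ + m)
        omega
      have h3 := ha (t m) h2 h1 (φ (t m) S) ⟨S, hS.1, fun f hf n hn hn' => by
        rw [htl] at hn hn'
        obtain ⟨b, hb, hbf⟩ := hgg (t m) f hf
        rw [← hbf, ← hhh b m n hn hn']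
        exact hS.2.2 _ (hF b hb) n (by rw [hl₁]; exact hmono.trans hn), rfl⟩
      change pre φ S (j₀ + m) ++ [φ (pre φ S (j₀ + m)) S] = t m ++ [a (t m)]
      rw [ih, h3]
  refine hund ⟨q₁, hq₁.trans hq, fun j => (t (j + 1)).getD j 0, fun S hS => funext fun j => ?_⟩
  rw [← main S hS (j + 1), ← pre_eq, List.getD_eq_getElem _ _ (by
    rw [List.length_map, List.length_range]
    omega)]
  simp

theorem claimB1 (hk : StrictMono k) (hφ : Reads k φ) (p : Cond)
    (hund : ¬ ∃ q, Cond.Le q p ∧ ∃ x : ℕ → ℕ, ∀ S, Thr q S → dig φ S = x)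
    (q : Cond) (hq : q.Le p) (hqF : q.F = p.F) (j : ℕ) (hqj : q.len = k j) :
    ∃ q', Cond.Le q' p ∧ q'.F = p.F ∧ ∃ j', q'.len = k j' ∧
      bits k φ (dig φ q'.s) j' = bits k φ (dig φ q.s) j ∧
      NKA k φ (pre φ q'.s j') (3 * (bits k φ (dig φ q.s) j).length) := by
  classical
  obtain ⟨q'', h1, i, h2, h3, h4⟩ := claimA hk hφ p hund q hq
    (3 * (bits k φ (dig φ q.s) j).length)
  have hji : j ≤ i := by
    rw [hqj] at h2
    exact hk.le_iff_le.1 h2
  have hex : ∃ i, j ≤ i ∧ NKA k φ (pre φ q''.s i) (3 * (bits k φ (dig φ q.s) j).length) :=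
    ⟨i, hji, h4⟩
  obtain ⟨i₀, hi₀⟩ : ∃ i₀, i₀ = Nat.find hex := ⟨_, rfl⟩
  have hspec := Nat.find_spec hex
  rw [← hi₀] at hspec
  have hmin : ∀ l, l < i₀ → j ≤ l →
      ¬ NKA k φ (pre φ q''.s l) (3 * (bits k φ (dig φ q.s) j).length) := by
    intro l hl hjl h5
    rw [hi₀] at hl
    exact Nat.find_min hex hl ⟨hjl, h5⟩
  have hi₀i : i₀ ≤ i := by
    rw [hi₀]
    exact Nat.find_min' hex ⟨hji, h4⟩
  have hlen : k i₀ ≤ q''.len := (hk.monotone hi₀i).trans h3
  have hbits : ∀ l, j ≤ l → l ≤ i₀ → bits k φ (dig φ q''.s) l = bits k φ (dig φ q.s) j := by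
    intro l hl
    induction l, hl using Nat.le_induction with
    | base =>
      intro _
      refine bits_congr j (dig_congr hk hφ j fun n hn => ?_)
      exact h1.2.1 n (by rw [hqj]; exact hn)
    | succ l hl ih =>
      intro h5
      have h6 := ih (by omega)
      rw [bits, h6, pre_eq, if_neg (hmin l (by omega) hl)]
  have hF : p.F.card ≤ k i₀ := by
    have a1 := p.card_F
    have a2 := hq.1
    rw [hqj] at a2
    have a3 := hk.monotone hspec.1
    omega
  refine ⟨mkC (k i₀) q''.s p.F (fun n hn => q''.card_s n (hn.trans_le hlen)) hF, ?_, rfl, i₀, rfl,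
    ?_, ?_⟩
  · refine Cond.Le.trans (q := q) ?_ hq
    refine mkC_le _ _ (by rw [hqj]; exact hk.monotone hspec.1) (fun n hn => h1.2.1 n hn)
      (by rw [hqF]) fun x hx n hn hn' => h1.2.2.2 x hx n hn (hn'.trans_le hlen)
  · rw [← hbits i₀ hspec.1 le_rfl]
    refine bits_congr i₀ (dig_congr hk hφ i₀ fun n hn => ?_)
    change (if n < k i₀ then q''.s n else ∅) = _
    rw [if_pos hn]
  · rw [pre_congr hk hφ (S' := q''.s) i₀ fun n hn => ?_]
    · exact hspec.2
    · change (if n < k i₀ then q''.s n else ∅) = _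
      rw [if_pos hn]

theorem claimB2 (hk : StrictMono k) (hφ : Reads k φ) (p : Cond)
    (hund : ¬ ∃ q, Cond.Le q p ∧ ∃ x : ℕ → ℕ, ∀ S, Thr q S → dig φ S = x)
    (q : Cond) (hq : q.Le p) (hqF : q.F = p.F) (j : ℕ) (hqj : q.len = k j) (b : Bool) :
    ∃ q', Cond.Le q' p ∧ q'.F = p.F ∧ ∃ j', q'.len = k j' ∧ ∃ b',
      bits k φ (dig φ q'.s) j' = bits k φ (dig φ q.s) j ++ [b'] ∧
      (p.F.card ≤ (bits k φ (dig φ q.s) j).length → b' = b) := by
  classical
  obtain ⟨q₁, h1, h2, i, h3, h4, h5⟩ := claimB1 hk hφ p hund q hq hqF j hqj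
  have hpl : p.len ≤ k i := by rw [← h3]; exact h1.1
  have hx : ∃ x ∈ Pos k φ (pre φ q₁.s i) p.F, (p.F.card ≤ (bits k φ (dig φ q.s) j).length →
      chi k φ (pre φ q₁.s i) (bits k φ (dig φ q.s) j).length x = b) := by
    by_cases h6 : p.F.card ≤ (bits k φ (dig φ q.s) j).length
    · obtain ⟨x, hx, hxb⟩ := chi_spec k φ _ _ h5 p.F h6 b
      exact ⟨x, hx, fun _ => hxb⟩
    · refine ⟨_, ⟨fun n => if n < k i then ∅ else im p.F n, fun n => ?_, fun f hf n hn _ => ?_, rfl⟩,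
        fun h => absurd h h6⟩
      · beta_reduce
        split_ifs with h7
        · simp
        · exact (card_im _ _).trans (p.card_F.trans (hpl.trans (not_lt.1 h7)))
      · rw [pre_length] at hn
        beta_reduce
        rw [if_neg (not_lt.2 hn)]
        exact mem_im hf n
  obtain ⟨x, ⟨S, hS1, hS2, hS3⟩, hxb⟩ := hx
  rw [pre_length] at hS2
  let g : ℕ → Finset ℕ := fun n => if n < k i then q₁.s n else S n
  have hg1 : ∀ n, n < k i → g n = q₁.s n := fun n hn => if_pos hn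
  have hg2 : ∀ n, k i ≤ n → g n = S n := fun n hn => if_neg (not_lt.2 hn)
  have hg : ∀ n < k (i + 1), (g n).card ≤ n := by
    intro n _
    rcases lt_or_ge n (k i) with h | h
    · rw [hg1 n h]
      exact q₁.card_s n (by rw [h3]; exact h)
    · rw [hg2 n h]
      exact hS1 n
  have hmono : k i ≤ k (i + 1) := hk.monotone (Nat.le_succ i)
  have hF : p.F.card ≤ k (i + 1) := p.card_F.trans (hpl.trans hmono)
  obtain ⟨q₂, hq₂⟩ : ∃ q₂, q₂ = mkC (k (i + 1)) g p.F hg hF := ⟨_, rfl⟩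
  have hs₂ : ∀ n < k (i + 1), q₂.s n = g n := by
    intro n hn
    rw [hq₂]
    change (if n < k (i + 1) then g n else ∅) = _
    rw [if_pos hn]
  have hle : q₂.Le q₁ := by
    rw [hq₂]
    refine mkC_le _ _ (by rw [h3]; exact hmono) (fun n hn => hg1 n (by rw [← h3]; exact hn))
      (by rw [h2]) fun x hx n hn hn' => ?_
    rw [h3] at hn
    rw [hg2 n hn]
    rw [h2] at hx
    exact hS2 x hx n hn hn'
  have hagree : ∀ n < k i, q₂.s n = q₁.s n := by
    intro n hn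
    rw [hs₂ n (hn.trans_le hmono), hg1 n hn]
  have e1 : bits k φ (dig φ q₂.s) i = bits k φ (dig φ q.s) j := by
    rw [← h4]
    exact bits_congr i (dig_congr hk hφ i hagree)
  have e2 : pre φ q₂.s i = pre φ q₁.s i := pre_congr hk hφ i hagree
  have e3 : dig φ q₂.s i = x := by
    unfold dig
    rw [e2, ← hS3]
    refine hφ _ _ _ fun n hn hn' => ?_
    rw [pre_length] at hn hn'
    rw [hs₂ n hn', hg2 n hn]
  refine ⟨q₂, hle.trans h1, by rw [hq₂]; rfl, i + 1, by rw [hq₂]; rfl,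
    chi k φ (pre φ q₁.s i) (bits k φ (dig φ q.s) j).length x, ?_, hxb⟩
  rw [bits, e1, pre_eq, e2, if_pos h5, e3]

/-- adaptive windows -/
theorem adaptive (k : ℕ → ℕ) (hk : StrictMono k) (φ : List ℕ → (ℕ → Finset ℕ) → ℕ)
    (hφ : Reads k φ) :
    ∃ c : (ℕ → ℕ) → ℕ → Bool, Measurable c ∧ ∀ p : Cond,
      (∃ q, Cond.Le q p ∧ ∃ x : ℕ → ℕ, ∀ S, Thr q S → dig φ S = x) ∨
      ∀ D : Set (List Bool), (∀ τ, ∃ σ ∈ D, τ <+: σ) →
        ∃ q, Cond.Le q p ∧ ∃ σ ∈ D, ∃ s : List ℕ, (∀ S, Thr q S → pre φ S s.length = s) ∧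
          ∀ x : ℕ → ℕ, (List.range s.length).map x = s →
            ∀ (i : ℕ) (hi : i < σ.length), σ[i] = c x i := by
  refine ⟨coh k φ, coh_meas k φ, fun p => ?_⟩
  by_cases hund : ∃ q, Cond.Le q p ∧ ∃ x : ℕ → ℕ, ∀ S, Thr q S → dig φ S = x
  · exact Or.inl hund
  right
  intro D hD
  have hkj : ∀ j, j ≤ k j := fun j => hk.id_le j
  have step1 : ∀ m, ∃ q, Cond.Le q p ∧ q.F = p.F ∧ ∃ j, q.len = k j ∧
      m ≤ (bits k φ (dig φ q.s) j).length := by
    intro m
    induction m with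
    | zero =>
      exact ⟨_, pad_le p (k p.len) p.F (hkj _) (p.card_F.trans (hkj _)) (Finset.Subset.refl _), rfl,
        p.len, rfl, Nat.zero_le _⟩
    | succ m ih =>
      obtain ⟨q, h1, h2, j, h3, h4⟩ := ih
      obtain ⟨q', h5, h6, j', h7, b', h8, -⟩ := claimB2 hk hφ p hund q h1 h2 j h3 true
      refine ⟨q', h5, h6, j', h7, ?_⟩
      rw [h8, List.length_append, List.length_singleton]
      omega
  have step2 : ∀ (γ β : List Bool) (q : Cond) (j : ℕ), Cond.Le q p → q.F = p.F → q.len = k j →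
      bits k φ (dig φ q.s) j = β → p.F.card ≤ β.length →
      ∃ q', Cond.Le q' p ∧ q'.F = p.F ∧ ∃ j', q'.len = k j' ∧
        bits k φ (dig φ q'.s) j' = β ++ γ := by
    intro γ
    induction γ with
    | nil =>
      intro β q j h1 h2 h3 h4 _
      exact ⟨q, h1, h2, j, h3, by rw [List.append_nil]; exact h4⟩
    | cons b γ ih =>
      intro β q j h1 h2 h3 h4 h5
      obtain ⟨q', h6, h7, j', h8, b', h9, h10⟩ := claimB2 hk hφ p hund q h1 h2 j h3 b
      rw [h4] at h9 h10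
      rw [h10 h5] at h9
      obtain ⟨q'', a1, a2, j'', a3, a4⟩ := ih (β ++ [b]) q' j' h6 h7 h8 h9 (by
        rw [List.length_append]
        omega)
      refine ⟨q'', a1, a2, j'', a3, ?_⟩
      rw [a4, List.append_assoc]
      rfl
  obtain ⟨q, h1, h2, j, h3, h4⟩ := step1 p.F.card
  obtain ⟨σ, hσD, γ, hγ⟩ := hD (bits k φ (dig φ q.s) j)
  obtain ⟨q', a1, a2, j', a3, a4⟩ := step2 γ _ q j h1 h2 h3 rfl h4
  rw [hγ] at a4
  refine ⟨q', a1, σ, hσD, pre φ q'.s j', fun S hS => ?_, fun x hx i hi => ?_⟩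
  · rw [pre_length]
    exact pre_congr hk hφ j' fun n hn => hS.2.1 n (by rw [a3]; exact hn)
  · rw [pre_length, ← pre_eq] at hx
    refine coh_eq (j := j') ?_ i hi
    rw [bits_congr j' (px_inj hx)]
    exact a4

end Pool.Agent.Helper71.LOC
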