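import Mathlib

/-! Localization forcing, names for natural numbers: the definitions. -/

set_option autoImplicit false

namespace Pool.Agent.Helper71.LOC

/-- the conditions `(s, F)` of localization forcing: `len` is the length of the stem `s` (with
`s n = ∅` for `n ≥ len`, which carries no information), `s n` has at most `n` elements, and `F` is a
finite set of at most `len` functions -/
structure Cond where
  /-- the length of the stem -/
  len : ℕ
  /-- the stem -/
  s : ℕ → Finset ℕ
  /-- the finite set of functions -/
  F : Finset (ℕ → ℕ)
  card_s : ∀ n < len, (s n).card ≤ n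
  out : ∀ n, len ≤ n → s n = ∅
  card_F : F.card ≤ len

/-- the order of localization forcing: `q` is stronger than `p` (the stem of `q` end-extends the stem
of `p`, `p.F ⊆ q.F` and the new part of the stem captures all functions of `p.F`) -/
def Cond.Le (q p : Cond) : Prop :=
  p.len ≤ q.len ∧ (∀ n < p.len, q.s n = p.s n) ∧ p.F ⊆ q.F ∧
    ∀ x ∈ p.F, ∀ n, p.len ≤ n → n < q.len → x n ∈ q.s n

/-- `N` is the forcing relation of a name for a natural number: `N p a` says that `p` forces that
the value is `a` -/
structure IsName (N : Cond → ℕ → Prop) : Prop where
  mono : ∀ p q a, N p a → q.Le p → N q a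
  uniq : ∀ p a b, N p a → N p b → a = b
  dense : ∀ p, ∃ q a, q.Le p ∧ N q a
  reg : ∀ p a, (∀ q, q.Le p → ∃ q', q'.Le q ∧ N q' a) → N p a

/-- the value depends on the stem only over `I`: conditions of the same length, with the same
functions and with stems which agree on `I`, force the same -/
def Over (I : Set ℕ) (N : Cond → ℕ → Prop) : Prop :=
  ∀ p q a, p.len = q.len → p.F = q.F → (∀ n ∈ I, p.s n = q.s n) → N p a → N q a

end Pool.Agent.Helper71.LOC
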