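import Pool.Agent.Helper71.LOC.Defs

/-! Localization forcing: reals which depend on the generic slalom window by window. -/

set_option autoImplicit false

namespace Pool.Agent.Helper71.LOC

theorem Cond.Le.refl (p : Cond) : p.Le p :=
  ⟨le_rfl, fun _ _ => rfl, Finset.Subset.refl _, fun _ _ _ h1 h2 => absurd h2 (not_lt.2 h1)⟩

theorem Cond.Le.trans {p q r : Cond} (h1 : r.Le q) (h2 : q.Le p) : r.Le p := by
  obtain ⟨a1, a2, a3, a4⟩ := h1
  obtain ⟨b1, b2, b3, b4⟩ := h2
  refine ⟨b1.trans a1, fun n hn => (a2 n (hn.trans_le b1)).trans (b2 n hn), b3.trans a3, ?_⟩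
  intro x hx n hn hn'
  rcases lt_or_ge n q.len with h | h
  · rw [a2 n h]
    exact b4 x hx n hn h
  · exact a4 x (b3 hx) n h hn'

/-- a condition from its data -/
def mkC (L : ℕ) (g : ℕ → Finset ℕ) (F : Finset (ℕ → ℕ)) (hg : ∀ n < L, (g n).card ≤ n)
    (hF : F.card ≤ L) : Cond where
  len := L
  s n := if n < L then g n else ∅
  F := F
  card_s n hn := by
    rw [if_pos hn]
    exact hg n hn
  out n hn := if_neg (not_lt.2 hn)
  card_F := hF

/-- the values of the functions in `F` at `n` -/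
def im (F : Finset (ℕ → ℕ)) (n : ℕ) : Finset ℕ := F.image fun f => f n

theorem card_im (F : Finset (ℕ → ℕ)) (n : ℕ) : (im F n).card ≤ F.card := Finset.card_image_le

theorem mem_im {F : Finset (ℕ → ℕ)} {f : ℕ → ℕ} (hf : f ∈ F) (n : ℕ) : f n ∈ im F n :=
  Finset.mem_image.2 ⟨f, hf, rfl⟩

/-- the stem of `q`, continued by the smallest possible values -/
def ex (q : Cond) (n : ℕ) : Finset ℕ := if n < q.len then q.s n else im q.F n

theorem card_ex (q : Cond) (n : ℕ) : (ex q n).card ≤ n := by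
  unfold ex
  split_ifs with h
  · exact q.card_s n h
  · exact (card_im _ _).trans (q.card_F.trans (not_lt.1 h))

theorem pad_le (q : Cond) (L : ℕ) (F : Finset (ℕ → ℕ)) (hL : q.len ≤ L) (hF : F.card ≤ L)
    (hqF : q.F ⊆ F) : (mkC L (ex q) F (fun n _ => card_ex q n) hF).Le q := by
  refine ⟨hL, ?_, hqF, ?_⟩
  · intro n hn
    change (if n < L then ex q n else ∅) = q.s n
    rw [if_pos (hn.trans_le hL)]
    unfold ex
    rw [if_pos hn]
  · intro x hx n hn hn'
    change x n ∈ (if n < L then ex q n else ∅)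
    rw [if_pos (show n < L from hn')]
    unfold ex
    rw [if_neg (not_lt.2 hn)]
    exact mem_im hx n

/-- the possible values below `p` -/
def V (N : Cond → ℕ → Prop) (p : Cond) : Set ℕ := {a | ∃ q, q.Le p ∧ N q a}

theorem transfer {I : Set ℕ} {N : Cond → ℕ → Prop} (hN : IsName N) (hW : Over I N) (p q : Cond)
    (a : ℕ) (hq : N q a) (hlen : ∀ n ∈ I, p.len ≤ n)
    (hF : ∀ f ∈ p.F, ∃ f' ∈ q.F, ∀ n ∈ I, f n = f' n)
    (hcap : ∀ f ∈ p.F, ∀ n ∈ I, n < q.len → f n ∈ q.s n) : ∃ q', Cond.Le q' p ∧ N q' a := by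
  classical
  obtain ⟨L, hL⟩ : ∃ L, L = q.len + p.len + (q.F ∪ p.F).card := ⟨_, rfl⟩
  have hL1 : q.len ≤ L := by omega
  have hL2 : p.len ≤ L := by omega
  have hL3 : (q.F ∪ p.F).card ≤ L := by omega
  have h1 := pad_le q L (q.F ∪ p.F) hL1 hL3 Finset.subset_union_left
  have h2 := hN.mono _ _ _ hq h1
  let g : ℕ → Finset ℕ := fun n => if n < p.len then p.s n else if n ∈ I then ex q n else im p.F n
  have hg : ∀ n < L, (g n).card ≤ n := by
    intro n _
    change (if n < p.len then p.s n else if n ∈ I then ex q n else im p.F n).card ≤ n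
    split_ifs with h3 h4
    · exact p.card_s n h3
    · exact card_ex q n
    · exact (card_im _ _).trans (p.card_F.trans (not_lt.1 h3))
  refine ⟨mkC L g (q.F ∪ p.F) hg hL3, ⟨hL2, ?_, Finset.subset_union_right, ?_⟩, ?_⟩
  · intro n hn
    change (if n < L then g n else ∅) = p.s n
    rw [if_pos (hn.trans_le hL2)]
    exact if_pos hn
  · intro f hf n hn hn'
    change f n ∈ (if n < L then g n else ∅)
    rw [if_pos (show n < L from hn')]
    change f n ∈ (if n < p.len then p.s n else if n ∈ I then ex q n else im p.F n)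
    rw [if_neg (not_lt.2 hn)]
    split_ifs with h3
    · unfold ex
      split_ifs with h4
      · exact hcap f hf n h3 h4
      · obtain ⟨f', hf', hff⟩ := hF f hf
        rw [hff n h3]
        exact mem_im hf' n
    · exact mem_im hf n
  · refine hW (mkC L (ex q) (q.F ∪ p.F) (fun n _ => card_ex q n) hL3) _ _ rfl rfl ?_ h2
    intro n hn
    change (if n < L then ex q n else ∅) = (if n < L then g n else ∅)
    split_ifs with h3
    · change ex q n = (if n < p.len then p.s n else if n ∈ I then ex q n else im p.F n)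
      rw [if_neg (not_lt.2 (hlen n hn)), if_pos hn]
    · rfl

theorem amalg {I : ℕ → Set ℕ} (hI : ∀ i j n, n ∈ I i → n ∈ I j → i = j)
    {N : ℕ → Cond → ℕ → Prop} (hN : ∀ j, IsName (N j)) (hW : ∀ j, Over (I j) (N j))
    (p : Cond) (J : Finset ℕ) (r : ℕ → ℕ) (hr : ∀ j ∈ J, r j ∈ V (N j) p) :
    ∃ q, Cond.Le q p ∧ ∀ j ∈ J, N j q (r j) := by
  classical
  have hr' : ∀ j, ∃ q, j ∈ J → Cond.Le q p ∧ N j q (r j) := by
    intro j
    by_cases hj : j ∈ J
    · obtain ⟨q, h1, h2⟩ := hr j hj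
      exact ⟨q, fun _ => ⟨h1, h2⟩⟩
    · exact ⟨p, fun h => absurd h hj⟩
  choose Q hQ using hr'
  obtain ⟨F', hF'⟩ : ∃ F', F' = p.F ∪ J.biUnion fun j => (Q j).F := ⟨_, rfl⟩
  obtain ⟨L, hL⟩ : ∃ L, L = p.len + ∑ j ∈ J, (Q j).len + F'.card := ⟨_, rfl⟩
  have hL1 : p.len ≤ L := by omega
  have hL2 : F'.card ≤ L := by omega
  have hL3 : ∀ j ∈ J, (Q j).len ≤ L := by
    intro j hj
    have h1 := Finset.single_le_sum (f := fun j => (Q j).len) (fun _ _ => Nat.zero_le _) hj
    omega
  have hF1 : ∀ j ∈ J, (Q j).F ⊆ F' := by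
    intro j hj f hf
    rw [hF', Finset.mem_union]
    exact Or.inr (Finset.mem_biUnion.2 ⟨j, hj, hf⟩)
  have hF2 : p.F ⊆ F' := by
    rw [hF']
    exact Finset.subset_union_left
  let g : ℕ → Finset ℕ := fun n => if n < p.len then p.s n else
    if h : ∃ j ∈ J, n ∈ I j then ex (Q h.choose) n else im p.F n
  have hg : ∀ n < L, (g n).card ≤ n := by
    intro n _
    change (if n < p.len then p.s n else
      if h : ∃ j ∈ J, n ∈ I j then ex (Q h.choose) n else im p.F n).card ≤ n
    split_ifs with h3 h4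
    · exact p.card_s n h3
    · exact card_ex _ n
    · exact (card_im _ _).trans (p.card_F.trans (not_lt.1 h3))
  refine ⟨mkC L g F' hg hL2, ⟨hL1, ?_, hF2, ?_⟩, ?_⟩
  · intro n hn
    change (if n < L then g n else ∅) = p.s n
    rw [if_pos (hn.trans_le hL1)]
    exact if_pos hn
  · intro f hf n hn hn'
    change f n ∈ (if n < L then g n else ∅)
    rw [if_pos (show n < L from hn')]
    change f n ∈ (if n < p.len then p.s n else
      if h : ∃ j ∈ J, n ∈ I j then ex (Q h.choose) n else im p.F n)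
    rw [if_neg (not_lt.2 hn)]
    split_ifs with h3
    · obtain ⟨h4, -⟩ := h3.choose_spec
      obtain ⟨h5, -⟩ := hQ _ h4
      unfold ex
      split_ifs with h6
      · exact h5.2.2.2 f hf n hn h6
      · exact mem_im (h5.2.2.1 hf) n
    · exact mem_im hf n
  · intro j hj
    obtain ⟨h1, h2⟩ := hQ j hj
    have h3 := pad_le (Q j) L F' (hL3 j hj) hL2 (hF1 j hj)
    have h4 := (hN j).mono _ _ _ h2 h3
    refine hW j (mkC L (ex (Q j)) F' (fun n _ => card_ex (Q j) n) hL2) _ _ rfl rfl ?_ h4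
    intro n hn
    change (if n < L then ex (Q j) n else ∅) = (if n < L then g n else ∅)
    split_ifs with h5
    · change ex (Q j) n = (if n < p.len then p.s n else
        if h : ∃ j ∈ J, n ∈ I j then ex (Q h.choose) n else im p.F n)
      split_ifs with h6 h7
      · unfold ex
        rw [if_pos (h6.trans_le h1.1)]
        exact h1.2.1 n h6
      · rw [hI h7.choose j n h7.choose_spec.2 hn]
      · exact absurd ⟨j, hj, hn⟩ h7
    · rfl

theorem decide_fin {N : ℕ → Cond → ℕ → Prop} (hN : ∀ j, IsName (N j)) (J : Finset ℕ) :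
    ∀ p : Cond, ∃ q, Cond.Le q p ∧ ∀ j ∈ J, ∃ a, N j q a := by
  classical
  induction J using Finset.induction_on with
  | empty => exact fun p => ⟨p, Cond.Le.refl p, fun j hj => absurd hj (Finset.notMem_empty j)⟩
  | insert j J _ ih =>
    intro p
    obtain ⟨q, h1, h2⟩ := ih p
    obtain ⟨q', a, h3, h4⟩ := (hN j).dense q
    refine ⟨q', h3.trans h1, ?_⟩
    intro i hi
    rcases Finset.mem_insert.1 hi with rfl | hi
    · exact ⟨a, h4⟩
    · obtain ⟨b, hb⟩ := h2 i hi
      exact ⟨b, (hN i).mono _ _ _ hb h3⟩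

/-- the condition with empty stem of length `K` and the functions `G` -/
def base (K : ℕ) (G : Finset (ℕ → ℕ)) (hG : G.card ≤ K) : Cond :=
  mkC K (fun _ => ∅) G (fun n _ => by simp) hG

theorem base_le {K : ℕ} {G G' : Finset (ℕ → ℕ)} (hG : G.card ≤ K) (hG' : G'.card ≤ K)
    (h : G ⊆ G') : (base K G' hG').Le (base K G hG) :=
  ⟨le_rfl, fun _ _ => rfl, h, fun _ _ _ h1 h2 => absurd h2 (not_lt.2 h1)⟩

theorem V_mono {N : Cond → ℕ → Prop} {p q : Cond} (h : q.Le p) : V N q ⊆ V N p :=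
  fun _ ⟨r, h1, h2⟩ => ⟨r, h1.trans h, h2⟩

/-- `K` functions cannot decide the value -/
def NK (I : Set ℕ) (N : Cond → ℕ → Prop) (K : ℕ) : Prop :=
  (∀ n ∈ I, K ≤ n) ∧ ∀ (G : Finset (ℕ → ℕ)) (hG : G.card ≤ K), ¬ ∃ a, N (base K G hG) a

theorem two_values {I : Set ℕ} {N : Cond → ℕ → Prop} (hN : IsName N) {K : ℕ} (h : NK I N K)
    (G : Finset (ℕ → ℕ)) (hG : G.card ≤ K) (a : ℕ) : ∃ b ∈ V N (base K G hG), b ≠ a := by
  by_contra hcon
  push Not at hcon
  refine h.2 G hG ⟨a, hN.reg _ _ ?_⟩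
  intro q hq
  obtain ⟨q', b, h1, h2⟩ := hN.dense q
  have h3 := hcon b ⟨q', h1.trans hq, h2⟩
  rw [h3] at h2
  exact ⟨q', h1, h2⟩

/-- a family of sets which pairwise meet in at least two points has a good colouring (Lovász) -/
theorem lovasz (A : Finset ℕ) (E : Set (Set ℕ))
    (h : ∀ X ∈ E, ∀ Y ∈ E, ∀ v : ℕ, ∃ z ∈ X, z ∈ Y ∧ z ≠ v) :
    ∃ ψ : ℕ → Bool, ∀ X ∈ E, (∀ x ∈ X, x ∈ A) → ∀ b, ∃ x ∈ X, ψ x = b := by
  classical
  induction A using Finset.induction_on with
  | empty =>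
    refine ⟨fun _ => true, fun X hX hXA => ?_⟩
    obtain ⟨z, hz, -⟩ := h X hX X hX 0
    exact absurd (hXA z hz) (Finset.notMem_empty z)
  | insert v A hv ih =>
    obtain ⟨ψ, hψ⟩ := ih
    by_contra hcon
    push Not at hcon
    obtain ⟨X, hX, hXA, b, hb⟩ := hcon (Function.update ψ v true)
    obtain ⟨Y, hY, hYA, b', hb'⟩ := hcon (Function.update ψ v false)
    have key : ∀ (Z : Set ℕ) (c d : Bool), Z ∈ E → (∀ x ∈ Z, x ∈ insert v A) →
        (∀ x ∈ Z, Function.update ψ v c x ≠ d) → ∀ z ∈ Z, z ≠ v → ψ z = c := by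
      intro Z c d hZ hZA hZd z hz hzv
      have hvZ : v ∈ Z := by
        by_contra hvZ
        obtain ⟨x, hx, hxd⟩ := hψ Z hZ (fun x hx => by
          rcases Finset.mem_insert.1 (hZA x hx) with h1 | h1
          · rw [h1] at hx
            exact absurd hx hvZ
          · exact h1) d
        have hxv : x ≠ v := fun h1 => hvZ (h1 ▸ hx)
        exact hZd x hx (by rw [Function.update_of_ne hxv]; exact hxd)
      have h1 := hZd v hvZ
      rw [Function.update_self] at h1
      have h2 := hZd z hz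
      rw [Function.update_of_ne hzv] at h2
      cases c <;> cases d <;> cases hψz : ψ z <;> simp_all
    obtain ⟨z, hz1, hz2, hz3⟩ := h X hX Y hY v
    have h1 := key X true b hX hXA hb z hz1 hz3
    have h2 := key Y false b' hY hYA hb' z hz2 hz3
    rw [h1] at h2
    exact absurd h2 (by decide)

/-- a coloured window -/
def Good1 (N : Cond → ℕ → Prop) (i : ℕ) : Prop :=
  ∃ ψ : ℕ → Bool, ∀ p : Cond, p.len ≤ i → ∀ b, ∃ x ∈ V N p, ψ x = b

/-- an unbounded window -/
def Good2 (N : Cond → ℕ → Prop) (i : ℕ) : Prop := ∀ p : Cond, p.len ≤ i → (V N p).Infinite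

theorem base_V {I : Set ℕ} {N : Cond → ℕ → Prop} (hN : IsName N) (hW : Over I N) {K : ℕ}
    (h : ∀ n ∈ I, K ≤ n) (p : Cond) (hp : p.len ≤ K) :
    V N (base K p.F (p.card_F.trans hp)) ⊆ V N p := by
  intro a ha
  obtain ⟨q, h1, h2⟩ := ha
  refine transfer hN hW p q a h2 (fun n hn => hp.trans (h n hn)) ?_ ?_
  · exact fun f hf => ⟨f, h1.2.2.1 hf, fun _ _ => rfl⟩
  · intro f hf n hn hn'
    exact h1.2.2.2 f hf n (h n hn) hn'

theorem good {I : Set ℕ} {N : Cond → ℕ → Prop} (hN : IsName N) (hW : Over I N) (i : ℕ)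
    (h : NK I N (3 * i)) : Good1 N i ∨ Good2 N i := by
  classical
  by_cases hfin : ∃ (G : Finset (ℕ → ℕ)) (hG : G.card ≤ 3 * i), G.card ≤ i ∧
      (V N (base (3 * i) G hG)).Finite
  · left
    obtain ⟨G₀, hG₀, hG₀i, hA⟩ := hfin
    obtain ⟨ψ, hψ⟩ := lovasz hA.toFinset
      {X | ∃ (G : Finset (ℕ → ℕ)) (hG : G.card ≤ 3 * i), G.card ≤ i ∧
        X = V N (base (3 * i) G hG) ∩ V N (base (3 * i) G₀ hG₀)} (by
        rintro X ⟨G, hG, hGi, rfl⟩ Y ⟨G', hG', hGi', rfl⟩ v
        have hc : (G ∪ G' ∪ G₀).card ≤ 3 * i := by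
          have h1 := Finset.card_union_le (G ∪ G') G₀
          have h2 := Finset.card_union_le G G'
          omega
        obtain ⟨z, hz, hzv⟩ := two_values hN h (G ∪ G' ∪ G₀) hc v
        have a1 : G ⊆ G ∪ G' ∪ G₀ := by
          intro x hx
          simp [hx]
        have a2 : G' ⊆ G ∪ G' ∪ G₀ := by
          intro x hx
          simp [hx]
        have a3 : G₀ ⊆ G ∪ G' ∪ G₀ := by
          intro x hx
          simp [hx]
        exact ⟨z, ⟨V_mono (base_le hG hc a1) hz, V_mono (base_le hG₀ hc a3) hz⟩,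
          ⟨V_mono (base_le hG' hc a2) hz, V_mono (base_le hG₀ hc a3) hz⟩, hzv⟩)
    refine ⟨ψ, fun p hp b => ?_⟩
    have h1 : p.F.card ≤ 3 * i := by
      have := p.card_F
      omega
    obtain ⟨x, hx, hxb⟩ := hψ _ ⟨p.F, h1, p.card_F.trans hp, rfl⟩ (fun x hx => by
      rw [Set.Finite.mem_toFinset]
      exact hx.2) b
    exact ⟨x, base_V hN hW h.1 p (by omega) hx.1, hxb⟩
  · right
    push Not at hfin
    intro p hp
    have h1 : p.F.card ≤ 3 * i := by
      have := p.card_F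
      omega
    exact (hfin p.F h1 (p.card_F.trans hp)).mono (base_V hN hW h.1 p (by omega))

/-- independent bits are Cohen -/
theorem cohen {I : ℕ → Set ℕ} (hI : ∀ i j n, n ∈ I i → n ∈ I j → i = j)
    {N : ℕ → Cond → ℕ → Prop} (hN : ∀ j, IsName (N j)) (hW : ∀ j, Over (I j) (N j))
    (e : ℕ → Finset ℕ) (ψ : ℕ → (ℕ → ℕ) → Bool)
    (he : ∀ i i' j, j ∈ e i → j ∈ e i' → i = i')
    (hψ : ∀ i r r', (∀ j ∈ e i, r j = r' j) → ψ i r = ψ i r')
    (hP : ∀ i (p : Cond), p.len ≤ i → ∀ b, ∃ ρ : ℕ → ℕ, (∀ j ∈ e i, ρ j ∈ V (N j) p) ∧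
      ψ i ρ = b) (p : Cond) (D : Set (List Bool)) (hD : ∀ τ, ∃ σ ∈ D, τ <+: σ) :
    ∃ (q : Cond) (r : ℕ → ℕ), q.Le p ∧ ∃ σ ∈ D, ∀ (i : ℕ) (hi : i < σ.length),
      (∀ j ∈ e i, N j q (r j)) ∧ σ[i] = ψ i r := by
  classical
  have h0 : ∀ j, ∃ a, a ∈ V (N j) p := by
    intro j
    obtain ⟨q, a, h1, h2⟩ := (hN j).dense p
    exact ⟨a, q, h1, h2⟩
  choose r₀ hr₀ using h0
  obtain ⟨σ, hσD, hσ⟩ := hD ((List.range p.len).map fun i => ψ i r₀)
  have h1 : ∀ i, ∃ ρ : ℕ → ℕ, p.len ≤ i → (∀ j ∈ e i, ρ j ∈ V (N j) p) ∧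
      ψ i ρ = σ.getD i false := by
    intro i
    by_cases hi : p.len ≤ i
    · obtain ⟨ρ, h1, h2⟩ := hP i p hi (σ.getD i false)
      exact ⟨ρ, fun _ => ⟨h1, h2⟩⟩
    · exact ⟨fun _ => 0, fun h => absurd h hi⟩
  choose ρ hρ using h1
  let r : ℕ → ℕ := fun j => if h : ∃ i, p.len ≤ i ∧ j ∈ e i then ρ h.choose j else r₀ j
  have hr1 : ∀ i, i < p.len → ∀ j ∈ e i, r j = r₀ j := by
    intro i hi j hj
    change (if h : ∃ i, p.len ≤ i ∧ j ∈ e i then ρ h.choose j else r₀ j) = r₀ j
    rw [dif_neg]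
    rintro ⟨i', h1, h2⟩
    have := he i i' j hj h2
    omega
  have hr2 : ∀ i, p.len ≤ i → ∀ j ∈ e i, r j = ρ i j := by
    intro i hi j hj
    have h : ∃ i, p.len ≤ i ∧ j ∈ e i := ⟨i, hi, hj⟩
    change (if h : ∃ i, p.len ≤ i ∧ j ∈ e i then ρ h.choose j else r₀ j) = ρ i j
    rw [dif_pos h, he h.choose i j h.choose_spec.2 hj]
  have hr3 : ∀ j, r j ∈ V (N j) p := by
    intro j
    change (if h : ∃ i, p.len ≤ i ∧ j ∈ e i then ρ h.choose j else r₀ j) ∈ V (N j) p
    split_ifs with h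
    · exact (hρ _ h.choose_spec.1).1 j h.choose_spec.2
    · exact hr₀ j
  obtain ⟨q, hq1, hq2⟩ := amalg hI hN hW p ((Finset.range σ.length).biUnion e) r
    fun j _ => hr3 j
  refine ⟨q, r, hq1, σ, hσD, fun i hi => ⟨fun j hj => hq2 j (Finset.mem_biUnion.2
    ⟨i, Finset.mem_range.2 hi, hj⟩), ?_⟩⟩
  rcases lt_or_ge i p.len with h | h
  · rw [hψ i r r₀ (hr1 i h)]
    have h2 : i < ((List.range p.len).map fun i => ψ i r₀).length := by simpa using h
    have h3 := hσ.getElem h2
    rw [← h3]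
    simp
  · rw [hψ i r (ρ i) (hr2 i h), (hρ i h).2, List.getD_eq_getElem _ _ hi]

/-- infinitely often good for every level gives an increasing sequence -/
theorem pick (P : ℕ → ℕ → Prop) (h : ∀ i m, ∃ j, m ≤ j ∧ P j i) :
    ∃ f : ℕ → ℕ, StrictMono f ∧ ∀ i, P (f i) i := by
  choose g hg1 hg2 using h
  let f : ℕ → ℕ := fun i => Nat.rec (g 0 0) (fun i a => g (i + 1) (a + 1)) i
  refine ⟨f, strictMono_nat_of_lt_succ fun i => ?_, fun i => ?_⟩
  · change f i < g (i + 1) (f i + 1)
    exact hg1 _ _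
  · cases i with
    | zero => exact hg2 _ _
    | succ i => exact hg2 _ _

theorem main (I : ℕ → Set ℕ) (hI : ∀ i j n, n ∈ I i → n ∈ I j → i = j)
    (N : ℕ → Cond → ℕ → Prop) (hN : ∀ j, IsName (N j)) (hW : ∀ j, Over (I j) (N j)) :
    (∀ p : Cond, ∃ q, Cond.Le q p ∧ ∀ j, ∃ a, N j q a) ∨
    ∃ (e : ℕ → Finset ℕ) (c : (ℕ → ℕ) → ℕ → Bool),
      (∀ i r r', (∀ j ∈ e i, r j = r' j) → c r i = c r' i) ∧
      ∀ (p : Cond) (D : Set (List Bool)), (∀ τ, ∃ σ ∈ D, τ <+: σ) →
        ∃ (q : Cond) (r : ℕ → ℕ), q.Le p ∧ ∃ σ ∈ D, ∀ (i : ℕ) (hi : i < σ.length),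
          (∀ j ∈ e i, N j q (r j)) ∧ σ[i] = c r i := by
  classical
  by_cases hcase : ∀ K m, ∃ j, m ≤ j ∧ NK (I j) (N j) K
  · right
    have hgood : ∀ i m, ∃ j, m ≤ j ∧ (Good1 (N j) i ∨ Good2 (N j) i) := by
      intro i m
      obtain ⟨j, h1, h2⟩ := hcase (3 * i) m
      exact ⟨j, h1, good (hN j) (hW j) i h2⟩
    by_cases hA : ∀ i m, ∃ j, m ≤ j ∧ Good1 (N j) i
    · obtain ⟨f, hf, hf2⟩ := pick (fun j i => Good1 (N j) i) hA
      choose ψ hψ using hf2
      refine ⟨fun i => {f i}, fun r i => ψ i (r (f i)), ?_, ?_⟩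
      · intro i r r' h
        simp only
        rw [h (f i) (Finset.mem_singleton_self _)]
      · refine cohen hI hN hW (fun i => {f i}) (fun i r => ψ i (r (f i))) ?_ ?_ ?_
        · intro i i' j h1 h2
          rw [Finset.mem_singleton] at h1 h2
          exact hf.injective (h1.symm.trans h2)
        · intro i r r' h
          rw [h (f i) (Finset.mem_singleton_self _)]
        · intro i p hp b
          obtain ⟨x, h1, h2⟩ := hψ i p hp b
          refine ⟨fun _ => x, fun j hj => ?_, h2⟩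
          rw [Finset.mem_singleton] at hj
          rw [hj]
          exact h1
    · push Not at hA
      obtain ⟨i₁, m₁, hA⟩ := hA
      have hB : ∀ i m, ∃ j, m ≤ j ∧ Good2 (N j) i := by
        intro i m
        obtain ⟨j, h1, h2⟩ := hgood (max i i₁) (max m m₁)
        refine ⟨j, (le_max_left _ _).trans h1, ?_⟩
        rcases h2 with ⟨ψ, hψ⟩ | h2
        · exact absurd ⟨ψ, fun p hp => hψ p (hp.trans (le_max_right _ _))⟩
            (hA j ((le_max_right _ _).trans h1))
        · exact fun p hp => h2 p (hp.trans (le_max_left _ _))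
      obtain ⟨f, hf, hf2⟩ := pick (fun j i => Good2 (N j) i) hB
      refine ⟨fun i => {f (2 * i), f (2 * i + 1)},
        fun r i => decide (r (f (2 * i)) < r (f (2 * i + 1))), ?_, ?_⟩
      · intro i r r' h
        simp only
        rw [h (f (2 * i)) (by simp), h (f (2 * i + 1)) (by simp)]
      · refine cohen hI hN hW (fun i => {f (2 * i), f (2 * i + 1)})
          (fun i r => decide (r (f (2 * i)) < r (f (2 * i + 1)))) ?_ ?_ ?_
        · intro i i' j h1 h2
          simp only [Finset.mem_insert, Finset.mem_singleton] at h1 h2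
          rcases h1 with h1 | h1 <;> rcases h2 with h2 | h2 <;>
            · have := hf.injective (h1.symm.trans h2)
              omega
        · intro i r r' h
          rw [h (f (2 * i)) (by simp), h (f (2 * i + 1)) (by simp)]
        · intro i p hp b
          have hne : f (2 * i) ≠ f (2 * i + 1) := fun h => by
            have := hf.injective h
            omega
          have g1 := hf2 (2 * i) p (by omega)
          have g2 := hf2 (2 * i + 1) p (by omega)
          cases b with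
          | true =>
            obtain ⟨x, hx⟩ := g1.nonempty
            obtain ⟨y, hy, hxy⟩ := g2.exists_gt x
            refine ⟨fun j => if j = f (2 * i) then x else y, fun j hj => ?_, ?_⟩
            · simp only [Finset.mem_insert, Finset.mem_singleton] at hj
              rcases hj with rfl | rfl
              · simpa using hx
              · simpa [hne.symm] using hy
            · simp [hne.symm, hxy]
          | false =>
            obtain ⟨y, hy⟩ := g2.nonempty
            obtain ⟨x, hx, hxy⟩ := g1.exists_gt y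
            refine ⟨fun j => if j = f (2 * i) then x else y, fun j hj => ?_, ?_⟩
            · simp only [Finset.mem_insert, Finset.mem_singleton] at hj
              rcases hj with rfl | rfl
              · simpa using hx
              · simpa [hne.symm] using hy
            · simp [hne.symm, hxy.le]
  · left
    push Not at hcase
    obtain ⟨K, j₀, hK⟩ := hcase
    have hkill : ∀ j, ∃ (G : Finset (ℕ → ℕ)) (hG : G.card ≤ K), j₀ ≤ j → (∀ n ∈ I j, K ≤ n) →
        ∃ a, N j (base K G hG) a := by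
      intro j
      by_cases h1 : j₀ ≤ j ∧ ∀ n ∈ I j, K ≤ n
      · have h2 := hK j h1.1
        unfold NK at h2
        push Not at h2
        obtain ⟨G, hG, h3⟩ := h2 h1.2
        exact ⟨G, hG, fun _ _ => h3⟩
      · refine ⟨∅, by simp, fun h2 h3 => absurd ⟨h2, h3⟩ h1⟩
    choose G hG hGa using hkill
    let gg : ℕ → ℕ → (ℕ → ℕ) := fun j a => (G j).toList.getD a (fun _ => 0)
    have hgg : ∀ j, ∀ f ∈ G j, ∃ a < K, gg j a = f := by
      intro j f hf
      obtain ⟨a, ha, hfa⟩ := List.getElem_of_mem (Finset.mem_toList.2 hf)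
      refine ⟨a, ?_, ?_⟩
      · rw [Finset.length_toList] at ha
        exact ha.trans_le (hG j)
      · change (G j).toList.getD a (fun _ => 0) = f
        rw [List.getD_eq_getElem _ _ ha]
        exact hfa
    let hh : ℕ → (ℕ → ℕ) := fun a n => if h : ∃ j, n ∈ I j then gg h.choose a n else 0
    have hhh : ∀ a j n, n ∈ I j → hh a n = gg j a n := by
      intro a j n hn
      have h : ∃ j, n ∈ I j := ⟨j, hn⟩
      change (if h : ∃ j, n ∈ I j then gg h.choose a n else 0) = gg j a n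
      rw [dif_pos h, hI h.choose j n h.choose_spec hn]
    intro p
    obtain ⟨F₁, hF₁⟩ : ∃ F₁, F₁ = p.F ∪ (Finset.range K).image hh := ⟨_, rfl⟩
    have hcard : F₁.card ≤ p.len + K := by
      rw [hF₁]
      have h1 := Finset.card_union_le p.F ((Finset.range K).image hh)
      have h2 : ((Finset.range K).image hh).card ≤ (Finset.range K).card :=
        Finset.card_image_le
      rw [Finset.card_range] at h2
      have h3 := p.card_F
      omega
    have hp₁ := pad_le p (p.len + K) F₁ (by omega) hcard (by rw [hF₁]; exact Finset.subset_union_left)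
    obtain ⟨p₁, hp₁e⟩ : ∃ p₁, p₁ = mkC (p.len + K) (ex p) F₁ (fun n _ => card_ex p n) hcard :=
      ⟨_, rfl⟩
    rw [← hp₁e] at hp₁
    have hlen : p₁.len = p.len + K := by rw [hp₁e]; rfl
    have hF : ∀ a < K, hh a ∈ p₁.F := by
      intro a ha
      rw [hp₁e]
      change hh a ∈ F₁
      rw [hF₁, Finset.mem_union]
      exact Or.inr (Finset.mem_image.2 ⟨a, Finset.mem_range.2 ha, rfl⟩)
    let jn : ℕ → ℕ := fun n => if h : ∃ j, n ∈ I j then h.choose else 0
    have hjn : ∀ n j, n ∈ I j → jn n = j := by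
      intro n j hn
      have h : ∃ j, n ∈ I j := ⟨j, hn⟩
      change (if h : ∃ j, n ∈ I j then h.choose else 0) = j
      rw [dif_pos h]
      exact hI h.choose j n h.choose_spec hn
    obtain ⟨q, hq1, hq2⟩ := decide_fin hN (Finset.range j₀ ∪ (Finset.range (p.len + K)).image jn) p₁
    refine ⟨q, hq1.trans hp₁, fun j => ?_⟩
    by_cases hj : j ∈ Finset.range j₀ ∪ (Finset.range (p.len + K)).image jn
    · exact hq2 j hj
    · rw [Finset.mem_union, not_or] at hj
      obtain ⟨h1, h2⟩ := hj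
      rw [Finset.mem_range, not_lt] at h1
      have h3 : ∀ n ∈ I j, p.len + K ≤ n := by
        intro n hn
        by_contra hcon
        exact h2 (Finset.mem_image.2 ⟨n, Finset.mem_range.2 (not_le.1 hcon), hjn n j hn⟩)
      obtain ⟨a, ha⟩ := hGa j h1 (fun n hn => by
        have := h3 n hn
        omega)
      refine ⟨a, (hN j).mono _ _ _ ((hN j).reg p₁ a fun q₁ hq₁ => ?_) hq1⟩
      obtain ⟨q₂, b, h4, h5⟩ := (hN j).dense q₁
      have h6 := h4.trans hq₁
      obtain ⟨q₃, h7, h8⟩ := transfer (hN j) (hW j) (base K (G j) (hG j)) q₂ b h5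
        (fun n hn => by
          have := h3 n hn
          change K ≤ n
          omega)
        (fun f hf => by
          obtain ⟨c, hc, hcf⟩ := hgg j f hf
          exact ⟨hh c, h6.2.2.1 (hF c hc), fun n hn => by rw [hhh c j n hn, hcf]⟩)
        (fun f hf n hn hn' => by
          obtain ⟨c, hc, hcf⟩ := hgg j f hf
          rw [← hcf, ← hhh c j n hn]
          exact h6.2.2.2 (hh c) (hF c hc) n (by rw [hlen]; exact h3 n hn) hn')
      have h9 := (hN j).uniq _ _ _ h8 ((hN j).mono _ _ _ ha h7)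
      rw [h9] at h5
      exact ⟨q₂, h4, h5⟩

end Pool.Agent.Helper71.LOC
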