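import Pool.Agent.Helper71.LOC.Main

/-! Localization forcing: sequences of reals over pairwise disjoint windows. -/

set_option autoImplicit false

namespace Pool.Agent.Helper71.LOC

theorem transfer' {I : Set ℕ} (p q : Cond) (hlen : ∀ n ∈ I, p.len ≤ n)
    (hF : ∀ f ∈ p.F, ∃ f' ∈ q.F, ∀ n ∈ I, f n = f' n)
    (hcap : ∀ f ∈ p.F, ∀ n ∈ I, n < q.len → f n ∈ q.s n) :
    ∃ q', Cond.Le q' p ∧ ∀ M, IsName M → Over I M → ∀ a, M q a → M q' a := by
  classical
  obtain ⟨L, hL⟩ : ∃ L, L = q.len + p.len + (q.F ∪ p.F).card := ⟨_, rfl⟩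
  have hL1 : q.len ≤ L := by omega
  have hL2 : p.len ≤ L := by omega
  have hL3 : (q.F ∪ p.F).card ≤ L := by omega
  have h1 := pad_le q L (q.F ∪ p.F) hL1 hL3 Finset.subset_union_left
  let g : ℕ → Finset ℕ := fun n => if n < p.len then p.s n else if n ∈ I then ex q n else im p.F n
  have hg : ∀ n < L, (g n).card ≤ n := by
    intro n _
    change (if n < p.len then p.s n else if n ∈ I then ex q n else im p.F n).card ≤ n
    split_ifs with h3 h4
    · exact p.card_s n h3
    · exact card_ex q n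
    · exact (card_im _ _).trans (p.card_F.trans (not_lt.1 h3))
  refine ⟨mkC L g (q.F ∪ p.F) hg hL3, ⟨hL2, ?_, Finset.subset_union_right, ?_⟩, ?_⟩
  · intro n hn
    change (if n < L then g n else ∅) = p.s n
    rw [if_pos (hn.trans_le hL2)]
    exact if_pos hn
  · intro f hf n hn hn'
    change f n ∈ (if n < L then g n else ∅)
    rw [if_pos (show n < L from hn')]
    change f n ∈ (if n < p.len then p.s n else if n ∈ I then ex q n else im p.F n)
    rw [if_neg (not_lt.2 hn)]
    split_ifs with h3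
    · unfold ex
      split_ifs with h4
      · exact hcap f hf n h3 h4
      · obtain ⟨f', hf', hff⟩ := hF f hf
        rw [hff n h3]
        exact mem_im hf' n
    · exact mem_im hf n
  · intro M hN hW a hq
    have h2 := hN.mono _ _ _ hq h1
    refine hW (mkC L (ex q) (q.F ∪ p.F) (fun n _ => card_ex q n) hL3) _ _ rfl rfl ?_ h2
    intro n hn
    change (if n < L then ex q n else ∅) = (if n < L then g n else ∅)
    split_ifs with h3
    · change ex q n = (if n < p.len then p.s n else if n ∈ I then ex q n else im p.F n)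
      rw [if_neg (not_lt.2 (hlen n hn)), if_pos hn]
    · rfl

theorem amalg' {I : ℕ → Set ℕ} (hI : ∀ i j n, n ∈ I i → n ∈ I j → i = j)
    (p : Cond) (J : Finset ℕ) (Q : ℕ → Cond) (hQ : ∀ j ∈ J, (Q j).Le p) :
    ∃ q, Cond.Le q p ∧ ∀ j ∈ J, ∀ M, IsName M → Over (I j) M → ∀ a, M (Q j) a → M q a := by
  classical
  obtain ⟨F', hF'⟩ : ∃ F', F' = p.F ∪ J.biUnion fun j => (Q j).F := ⟨_, rfl⟩
  obtain ⟨L, hL⟩ : ∃ L, L = p.len + ∑ j ∈ J, (Q j).len + F'.card := ⟨_, rfl⟩
  have hL1 : p.len ≤ L := by omega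
  have hL2 : F'.card ≤ L := by omega
  have hL3 : ∀ j ∈ J, (Q j).len ≤ L := by
    intro j hj
    have h1 := Finset.single_le_sum (f := fun j => (Q j).len) (fun _ _ => Nat.zero_le _) hj
    omega
  have hF1 : ∀ j ∈ J, (Q j).F ⊆ F' := by
    intro j hj f hf
    rw [hF', Finset.mem_union]
    exact Or.inr (Finset.mem_biUnion.2 ⟨j, hj, hf⟩)
  have hF2 : p.F ⊆ F' := by
    rw [hF']
    exact Finset.subset_union_left
  let g : ℕ → Finset ℕ := fun n => if n < p.len then p.s n else
    if h : ∃ j ∈ J, n ∈ I j then ex (Q h.choose) n else im p.F n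
  have hg : ∀ n < L, (g n).card ≤ n := by
    intro n _
    change (if n < p.len then p.s n else
      if h : ∃ j ∈ J, n ∈ I j then ex (Q h.choose) n else im p.F n).card ≤ n
    split_ifs with h3 h4
    · exact p.card_s n h3
    · exact card_ex _ n
    · exact (card_im _ _).trans (p.card_F.trans (not_lt.1 h3))
  refine ⟨mkC L g F' hg hL2, ⟨hL1, ?_, hF2, ?_⟩, ?_⟩
  · intro n hn
    change (if n < L then g n else ∅) = p.s n
    rw [if_pos (hn.trans_le hL1)]
    exact if_pos hn
  · intro f hf n hn hn'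
    change f n ∈ (if n < L then g n else ∅)
    rw [if_pos (show n < L from hn')]
    change f n ∈ (if n < p.len then p.s n else
      if h : ∃ j ∈ J, n ∈ I j then ex (Q h.choose) n else im p.F n)
    rw [if_neg (not_lt.2 hn)]
    split_ifs with h3
    · obtain ⟨h4, -⟩ := h3.choose_spec
      have h5 := hQ _ h4
      unfold ex
      split_ifs with h6
      · exact h5.2.2.2 f hf n hn h6
      · exact mem_im (h5.2.2.1 hf) n
    · exact mem_im hf n
  · intro j hj M hN hW a h2
    have h1 := hQ j hj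
    have h3 := pad_le (Q j) L F' (hL3 j hj) hL2 (hF1 j hj)
    have h4 := hN.mono _ _ _ h2 h3
    refine hW (mkC L (ex (Q j)) F' (fun n _ => card_ex (Q j) n) hL2) _ _ rfl rfl ?_ h4
    intro n hn
    change (if n < L then ex (Q j) n else ∅) = (if n < L then g n else ∅)
    split_ifs with h5
    · change ex (Q j) n = (if n < p.len then p.s n else
        if h : ∃ j ∈ J, n ∈ I j then ex (Q h.choose) n else im p.F n)
      split_ifs with h6 h7
      · unfold ex
        rw [if_pos (h6.trans_le h1.1)]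
        exact h1.2.1 n h6
      · rw [hI h7.choose j n h7.choose_spec.2 hn]
      · exact absurd ⟨j, hj, hn⟩ h7
    · rfl

/-- `b` is a possible value of `Φ` below `p`, seen on the set `u` of coordinates -/
def Poss {β : Type} (N : ℕ → Cond → ℕ → Prop) (Φ : (ℕ → ℕ) → β) (p : Cond) (b : β) : Prop :=
  ∃ q, Cond.Le q p ∧ ∃ (u : Set ℕ) (v : ℕ → ℕ), (∀ m ∈ u, N m q (v m)) ∧
    ∀ x : ℕ → ℕ, (∀ m ∈ u, x m = v m) → Φ x = b

theorem Poss.mono {β : Type} {N : ℕ → Cond → ℕ → Prop} {Φ : (ℕ → ℕ) → β} {p q : Cond} {b : β}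
    (h : Poss N Φ q b) (hq : q.Le p) : Poss N Φ p b := by
  obtain ⟨r, h1, h2⟩ := h
  exact ⟨r, h1.trans hq, h2⟩

theorem Poss.comp {β γ : Type} {N : ℕ → Cond → ℕ → Prop} {Φ : (ℕ → ℕ) → β} {p : Cond} {b : β}
    (g : β → γ) (h : Poss N Φ p b) : Poss N (fun x => g (Φ x)) p (g b) := by
  obtain ⟨r, h1, u, v, h2, h3⟩ := h
  exact ⟨r, h1, u, v, h2, fun x hx => congrArg g (h3 x hx)⟩

theorem Poss.base {β : Type} {I : Set ℕ} {N : ℕ → Cond → ℕ → Prop} (hN : ∀ m, IsName (N m))
    (hW : ∀ m, Over I (N m)) {Φ : (ℕ → ℕ) → β} {K : ℕ} (h : ∀ n ∈ I, K ≤ n) (p : Cond)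
    (hp : p.len ≤ K) {b : β} (hb : Poss N Φ (base K p.F (p.card_F.trans hp)) b) :
    Poss N Φ p b := by
  obtain ⟨q, h1, u, v, h2, h3⟩ := hb
  obtain ⟨q', h4, h5⟩ := transfer' (I := I) p q (fun n hn => hp.trans (h n hn))
    (fun f hf => ⟨f, h1.2.2.1 hf, fun _ _ => rfl⟩)
    (fun f hf n hn hn' => h1.2.2.2 f hf n (h n hn) hn')
  exact ⟨q', h4, u, v, fun m hm => h5 _ (hN m) (hW m) _ (h2 m hm), h3⟩

theorem decide_lt {N : ℕ → Cond → ℕ → Prop} (hN : ∀ j, IsName (N j)) (m : ℕ) (p : Cond) :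
    ∃ q, Cond.Le q p ∧ ∃ v : ℕ → ℕ, ∀ k < m, N k q (v k) := by
  obtain ⟨q, h1, h2⟩ := decide_fin hN (Finset.range m) p
  have h3 : ∀ k, ∃ a, k < m → N k q a := by
    intro k
    by_cases hk : k < m
    · obtain ⟨a, ha⟩ := h2 k (Finset.mem_range.2 hk)
      exact ⟨a, fun _ => ha⟩
    · exact ⟨0, fun h => absurd h hk⟩
  choose v hv using h3
  exact ⟨q, h1, v, fun k hk => hv k hk⟩

/-- `K` functions cannot decide the whole real -/
def NKR (I : Set ℕ) (N : ℕ → Cond → ℕ → Prop) (K : ℕ) : Prop :=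
  (∀ n ∈ I, K ≤ n) ∧ ∀ (G : Finset (ℕ → ℕ)) (hG : G.card ≤ K), ¬ ∀ m, ∃ a, N m (base K G hG) a

/-- the code of the first `m` values -/
def code : ℕ → (ℕ → ℕ) → ℕ
  | 0, _ => 0
  | m + 1, x => Nat.pair (code m x) (x m)

theorem code_eq (m : ℕ) (x y : ℕ → ℕ) : code m x = code m y ↔ ∀ k < m, x k = y k := by
  induction m with
  | zero => simp [code]
  | succ m ih =>
    rw [code, code, Nat.pair_eq_pair, ih]
    constructor
    · rintro ⟨h1, h2⟩ k hk
      rcases Nat.lt_succ_iff_lt_or_eq.1 hk with h | h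
      · exact h1 k h
      · rw [h]
        exact h2
    · intro h
      exact ⟨fun k hk => h k (by omega), h m (by omega)⟩

theorem code_meas (m : ℕ) : Measurable (code m) := by
  induction m with
  | zero => exact measurable_const
  | succ m ih =>
    have h1 : Measurable fun x : ℕ × ℕ => Nat.pair x.1 x.2 := Measurable.of_discrete
    exact h1.comp (ih.prodMk (measurable_pi_apply m))

/-- the first place where `y` and `x` differ, plus one -/
noncomputable def del (x y : ℕ → ℕ) : ℕ := by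
  classical
  exact if h : ∃ k, y k ≠ x k then Nat.find h + 1 else 0

theorem del_zero {x y : ℕ → ℕ} (h : ∀ k, y k = x k) : del x y = 0 := by
  classical
  unfold del
  rw [dif_neg]
  push Not
  exact h

theorem del_succ {x y : ℕ → ℕ} {n : ℕ} (h1 : ∀ k < n, y k = x k) (h2 : y n ≠ x n) :
    del x y = n + 1 := by
  classical
  have h : ∃ k, y k ≠ x k := ⟨n, h2⟩
  unfold del
  rw [dif_pos h]
  congr 1
  rw [Nat.find_eq_iff]
  exact ⟨h2, fun k hk => not_not.2 (h1 k hk)⟩

theorem del_cases (x y : ℕ → ℕ) : (∀ k, y k = x k) ∨ ∃ n, (∀ k < n, y k = x k) ∧ y n ≠ x n := by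
  classical
  by_cases h : ∃ k, y k ≠ x k
  · right
    exact ⟨Nat.find h, fun k hk => not_not.1 (Nat.find_min h hk), Nat.find_spec h⟩
  · left
    push Not at h
    exact h

theorem del_meas (x : ℕ → ℕ) : Measurable (del x) := by
  refine measurable_to_countable' fun a => ?_
  cases a with
  | zero =>
    have h1 : del x ⁻¹' {0} = ⋂ k, {y : ℕ → ℕ | y k = x k} := by
      ext y
      simp only [Set.mem_preimage, Set.mem_singleton_iff, Set.mem_iInter, Set.mem_ofPred_eq]
      constructor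
      · intro h
        rcases del_cases x y with h2 | ⟨n, h2, h3⟩
        · exact h2
        · rw [del_succ h2 h3] at h
          omega
      · exact fun h => del_zero h
    rw [h1]
    exact MeasurableSet.iInter fun k => measurable_pi_apply k (measurableSet_singleton _)
  | succ n =>
    have h1 : del x ⁻¹' {n + 1} = (⋂ k, ⋂ (_ : k < n), {y : ℕ → ℕ | y k = x k}) ∩
        {y : ℕ → ℕ | y n = x n}ᶜ := by
      ext y
      simp only [Set.mem_preimage, Set.mem_singleton_iff, Set.mem_inter_iff, Set.mem_iInter,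
        Set.mem_ofPred_eq, Set.mem_compl_iff]
      constructor
      · intro h
        rcases del_cases x y with h2 | ⟨n', h2, h3⟩
        · rw [del_zero h2] at h
          omega
        · rw [del_succ h2 h3] at h
          have h4 : n' = n := by omega
          subst h4
          exact ⟨h2, h3⟩
      · exact fun h => del_succ h.1 h.2
    rw [h1]
    refine MeasurableSet.inter ?_ ?_
    · exact MeasurableSet.iInter fun k => MeasurableSet.iInter fun _ =>
        measurable_pi_apply k (measurableSet_singleton _)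
    · exact (measurable_pi_apply n (measurableSet_singleton _)).compl

/-- a coloured window -/
def GoodA (N : ℕ → Cond → ℕ → Prop) (i : ℕ) : Prop :=
  ∃ χ : (ℕ → ℕ) → Bool, Measurable χ ∧ (∀ p, ∃ b, Poss N χ p b) ∧
    ∀ p : Cond, p.len ≤ i → ∀ b, Poss N χ p b

/-- an unbounded window -/
def GoodB (N : ℕ → Cond → ℕ → Prop) (i : ℕ) : Prop :=
  ∃ Φ : (ℕ → ℕ) → ℕ, Measurable Φ ∧ (∀ p, ∃ a, Poss N Φ p a) ∧
    ∀ p : Cond, p.len ≤ i → {a | Poss N Φ p a}.Infinite

theorem window {I : Set ℕ} {N : ℕ → Cond → ℕ → Prop} (hN : ∀ m, IsName (N m))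
    (hW : ∀ m, Over I (N m)) (i : ℕ) (h : NKR I N (6 * i)) : GoodA N i ∨ GoodB N i := by
  classical
  have hcd : ∀ (m : ℕ) (p : Cond), ∃ a, Poss N (code m) p a := by
    intro m p
    obtain ⟨q, h1, v, h2⟩ := decide_lt hN m p
    exact ⟨code m v, q, h1, {k | k < m}, v, fun k hk => h2 k hk, fun x hx =>
      (code_eq m x v).2 hx⟩
  by_cases hcase : ∃ m, ∀ (G : Finset (ℕ → ℕ)) (hG : G.card ≤ 6 * i), G.card ≤ 3 * i →
      ¬ ∀ k < m, ∃ a, N k (base (6 * i) G hG) a
  · obtain ⟨m, hm⟩ := hcase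
    have htwo : ∀ (G : Finset (ℕ → ℕ)) (hG : G.card ≤ 6 * i), G.card ≤ 3 * i → ∀ a,
        ∃ b, Poss N (code m) (base (6 * i) G hG) b ∧ b ≠ a := by
      intro G hG hG3 a
      by_contra hcon
      push Not at hcon
      obtain ⟨q₀, h1, w, h2⟩ := decide_lt hN m (base (6 * i) G hG)
      have h3 : code m w = a := hcon _ ⟨q₀, h1, {k | k < m}, w, fun k hk => h2 k hk,
        fun x hx => (code_eq m x w).2 hx⟩
      refine hm G hG hG3 fun k hk => ⟨w k, (hN k).reg _ _ fun q hq => ?_⟩
      obtain ⟨q', h4, w', h5⟩ := decide_lt hN m q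
      have h6 : code m w' = a := hcon _ ⟨q', h4.trans hq, {k | k < m}, w', fun k hk => h5 k hk,
        fun x hx => (code_eq m x w').2 hx⟩
      have h7 := (code_eq m w' w).1 (h6.trans h3.symm) k hk
      exact ⟨q', h4, h7 ▸ h5 k hk⟩
    by_cases hfin : ∃ (G : Finset (ℕ → ℕ)) (hG : G.card ≤ 6 * i), G.card ≤ i ∧
        {a | Poss N (code m) (base (6 * i) G hG) a}.Finite
    · left
      obtain ⟨G₀, hG₀, hG₀i, hA⟩ := hfin
      obtain ⟨ψ, hψ⟩ := lovasz hA.toFinset
        {X | ∃ (G : Finset (ℕ → ℕ)) (hG : G.card ≤ 6 * i), G.card ≤ i ∧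
          X = {a | Poss N (code m) (base (6 * i) G hG) a} ∩
            {a | Poss N (code m) (base (6 * i) G₀ hG₀) a}} (by
          rintro X ⟨G, hG, hGi, rfl⟩ Y ⟨G', hG', hGi', rfl⟩ v
          have hc3 : (G ∪ G' ∪ G₀).card ≤ 3 * i := by
            have h1 := Finset.card_union_le (G ∪ G') G₀
            have h2 := Finset.card_union_le G G'
            omega
          have hc : (G ∪ G' ∪ G₀).card ≤ 6 * i := by omega
          obtain ⟨z, hz, hzv⟩ := htwo (G ∪ G' ∪ G₀) hc hc3 v
          have a1 : G ⊆ G ∪ G' ∪ G₀ := by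
            intro x hx
            simp [hx]
          have a2 : G' ⊆ G ∪ G' ∪ G₀ := by
            intro x hx
            simp [hx]
          have a3 : G₀ ⊆ G ∪ G' ∪ G₀ := by
            intro x hx
            simp [hx]
          exact ⟨z, ⟨hz.mono (base_le hG hc a1), hz.mono (base_le hG₀ hc a3)⟩,
            ⟨hz.mono (base_le hG' hc a2), hz.mono (base_le hG₀ hc a3)⟩, hzv⟩)
      refine ⟨fun x => ψ (code m x), (Measurable.of_discrete (f := ψ)).comp (code_meas m),
        fun p => ?_, fun p hp b => ?_⟩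
      · obtain ⟨a, ha⟩ := hcd m p
        exact ⟨ψ a, ha.comp ψ⟩
      · have h1 : p.F.card ≤ 6 * i := by
          have := p.card_F
          omega
        obtain ⟨x, hx, hxb⟩ := hψ _ ⟨p.F, h1, p.card_F.trans hp, rfl⟩ (fun x hx => by
          rw [Set.Finite.mem_toFinset]
          exact hx.2) b
        have h2 : Poss N (code m) p x := Poss.base hN hW h.1 p (by omega) hx.1
        have h3 := h2.comp ψ
        rwa [hxb] at h3
    · right
      push Not at hfin
      refine ⟨code m, code_meas m, hcd m, fun p hp => ?_⟩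
      have h1 : p.F.card ≤ 6 * i := by
        have := p.card_F
        omega
      refine (hfin p.F h1 (p.card_F.trans hp)).mono fun a ha => ?_
      exact Poss.base hN hW h.1 p (by omega) ha
  · right
    push Not at hcase
    choose G hG hG3 hGa using hcase
    choose X hX using hGa
    have hx0 : ∀ k, ∃ a, N k (base (6 * i) (G (k + 1)) (hG (k + 1))) a := fun k =>
      ⟨X (k + 1) k (by omega), hX (k + 1) k (by omega)⟩
    choose x hx using hx0
    have hxm : ∀ m k, k < m → N k (base (6 * i) (G m) (hG m)) (x k) := by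
      intro m k hk
      have hc : (G m ∪ G (k + 1)).card ≤ 6 * i := by
        have h1 := Finset.card_union_le (G m) (G (k + 1))
        have h2 := hG3 m
        have h3 := hG3 (k + 1)
        omega
      have h1 := (hN k).mono _ _ _ (hX m k hk) (base_le (hG m) hc Finset.subset_union_left)
      have h2 := (hN k).mono _ _ _ (hx k) (base_le (hG (k + 1)) hc Finset.subset_union_right)
      have h3 := (hN k).uniq _ _ _ h1 h2
      have h4 := hX m k hk
      rwa [h3] at h4
    -- a condition which sees a difference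
    have hdiff : ∀ (p q : Cond) (k a : ℕ), q.Le p → N k q a → a ≠ x k →
        ∃ n, (∃ q', Cond.Le q' p ∧ ∃ v : ℕ → ℕ, (∀ l ≤ n, N l q' (v l)) ∧ (∀ l < n, v l = x l) ∧
          v n ≠ x n) ∧ Poss N (del x) p (n + 1) := by
      intro p q k a hq ha hak
      obtain ⟨q', h1, v, h2⟩ := decide_lt hN (k + 1) q
      have h3 : v k ≠ x k := by
        have h4 := (hN k).uniq _ _ _ (h2 k (by omega)) ((hN k).mono _ _ _ ha h1)
        rw [h4]
        exact hak
      have h4 : ∃ n, v n ≠ x n := ⟨k, h3⟩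
      have h5 : Nat.find h4 ≤ k := Nat.find_min' h4 h3
      have h6 : ∀ l < Nat.find h4, v l = x l := fun l hl => not_not.1 (Nat.find_min h4 hl)
      have h7 : ∀ l ≤ Nat.find h4, N l q' (v l) := fun l hl => h2 l (by omega)
      refine ⟨Nat.find h4, ⟨q', h1.trans hq, v, h7, h6, Nat.find_spec h4⟩, q', h1.trans hq,
        {l | l ≤ Nat.find h4}, v, h7, fun y hy => ?_⟩
      refine del_succ (fun l hl => ?_) ?_
      · rw [hy l (le_of_lt hl), h6 l hl]
      · rw [hy _ (le_refl (Nat.find h4))]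
        exact Nat.find_spec h4
    refine ⟨del x, del_meas x, fun p => ?_, fun p hp => ?_⟩
    · by_cases hp : ∃ (q : Cond) (k a : ℕ), q.Le p ∧ N k q a ∧ a ≠ x k
      · obtain ⟨q, k, a, h1, h2, h3⟩ := hp
        obtain ⟨n, -, h4⟩ := hdiff p q k a h1 h2 h3
        exact ⟨n + 1, h4⟩
      · push Not at hp
        refine ⟨0, p, Cond.Le.refl p, Set.univ, x, fun k _ => (hN k).reg _ _ fun q hq => ?_,
          fun y hy => del_zero fun k => hy k (Set.mem_univ k)⟩
        obtain ⟨q', a, h1, h2⟩ := (hN k).dense q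
        rw [hp q' k a (h1.trans hq) h2] at h2
        exact ⟨q', h1, h2⟩
    · have h1 : p.F.card ≤ 6 * i := by
        have := p.card_F
        omega
      refine Set.infinite_of_forall_exists_gt fun m => ?_
      have hc : (p.F ∪ G m).card ≤ 6 * i := by
        have h2 := Finset.card_union_le p.F (G m)
        have h3 := hG3 m
        have h4 := p.card_F
        omega
      have h2 := h.2 (p.F ∪ G m) hc
      have h3 : ∃ (q : Cond) (k a : ℕ), q.Le (base (6 * i) (p.F ∪ G m) hc) ∧ N k q a ∧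
          a ≠ x k := by
        by_contra hcon
        push Not at hcon
        refine h2 fun k => ⟨x k, (hN k).reg _ _ fun q hq => ?_⟩
        obtain ⟨q', a, h4, h5⟩ := (hN k).dense q
        rw [hcon q' k a (h4.trans hq) h5] at h5
        exact ⟨q', h4, h5⟩
      obtain ⟨q, k, a, h4, h5, h6⟩ := h3
      obtain ⟨n, ⟨q', h7, v, h8, h9, h10⟩, h11⟩ := hdiff _ q k a h4 h5 h6
      have hmn : m ≤ n := by
        by_contra hcon
        have h12 := (hN n).mono _ _ _ (hxm m n (not_le.1 hcon))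
          (h7.trans (base_le (hG m) hc Finset.subset_union_right))
        exact h10 ((hN n).uniq _ _ _ (h8 n le_rfl) h12)
      refine ⟨n + 1, ?_, by omega⟩
      exact Poss.base hN hW h.1 p (by omega)
        (h11.mono (base_le h1 hc Finset.subset_union_left))

/-- `p` leaves the bit `b` possible for the `i`-th bit -/
def Dec (N : ℕ → ℕ → Cond → ℕ → Prop) (e : ℕ → Finset ℕ) (c : (ℕ → ℕ → ℕ) → ℕ → Bool) (i : ℕ)
    (p : Cond) (b : Bool) : Prop :=
  ∃ (Q : ℕ → Cond) (u : ℕ → Set ℕ) (v : ℕ → ℕ → ℕ),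
    (∀ j ∈ e i, (Q j).Le p ∧ ∀ m ∈ u j, N j m (Q j) (v j m)) ∧
    ∀ r : ℕ → ℕ → ℕ, (∀ j ∈ e i, ∀ m ∈ u j, r j m = v j m) → c r i = b

/-- independent bits are Cohen -/
theorem cohen2 {I : ℕ → Set ℕ} (hI : ∀ i j n, n ∈ I i → n ∈ I j → i = j)
    {N : ℕ → ℕ → Cond → ℕ → Prop} (hN : ∀ j m, IsName (N j m))
    (hW : ∀ j m, Over (I j) (N j m)) (e : ℕ → Finset ℕ) (c : (ℕ → ℕ → ℕ) → ℕ → Bool)
    (he : ∀ i i' j, j ∈ e i → j ∈ e i' → i = i') (h0 : ∀ i p, ∃ b, Dec N e c i p b)
    (hP : ∀ i (p : Cond), p.len ≤ i → ∀ b, Dec N e c i p b) (p : Cond) (D : Set (List Bool))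
    (hD : ∀ τ, ∃ σ ∈ D, τ <+: σ) :
    ∃ q : Cond, q.Le p ∧ ∃ (σ : List Bool) (u : Set (ℕ × ℕ)) (ρ : ℕ → ℕ → ℕ), σ ∈ D ∧
      (∀ x ∈ u, N x.1 x.2 q (ρ x.1 x.2)) ∧
      ∀ r : ℕ → ℕ → ℕ, (∀ x ∈ u, r x.1 x.2 = ρ x.1 x.2) →
        ∀ (i : ℕ) (hi : i < σ.length), σ[i] = c r i := by
  classical
  have h0' : ∀ i, ∃ b, Dec N e c i p b := fun i => h0 i p
  choose b₀ hb₀ using h0'
  obtain ⟨σ, hσD, hσ⟩ := hD ((List.range p.len).map b₀)
  have h1 : ∀ i, Dec N e c i p (if i < p.len then b₀ i else σ.getD i false) := by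
    intro i
    split_ifs with hi
    · exact hb₀ i
    · exact hP i p (not_lt.1 hi) _
  choose Q u v hQ hv using h1
  let Q' : ℕ → Cond := fun j => if h : ∃ i, j ∈ e i then Q h.choose j else p
  let ρ : ℕ → ℕ → ℕ := fun j => if h : ∃ i, j ∈ e i then v h.choose j else fun _ => 0
  have hQ' : ∀ i, ∀ j ∈ e i, Q' j = Q i j := by
    intro i j hj
    have h : ∃ i, j ∈ e i := ⟨i, hj⟩
    change (if h : ∃ i, j ∈ e i then Q h.choose j else p) = Q i j
    rw [dif_pos h, he h.choose i j h.choose_spec hj]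
  have hρ : ∀ i, ∀ j ∈ e i, ρ j = v i j := by
    intro i j hj
    have h : ∃ i, j ∈ e i := ⟨i, hj⟩
    change (if h : ∃ i, j ∈ e i then v h.choose j else fun _ => 0) = v i j
    rw [dif_pos h, he h.choose i j h.choose_spec hj]
  obtain ⟨q, hq1, hq2⟩ := amalg' hI p ((Finset.range σ.length).biUnion e) Q' (by
    intro j hj
    obtain ⟨i, -, hj⟩ := Finset.mem_biUnion.1 hj
    rw [hQ' i j hj]
    exact (hQ i j hj).1)
  refine ⟨q, hq1, σ, {x | ∃ i < σ.length, x.1 ∈ e i ∧ x.2 ∈ u i x.1}, ρ, hσD, ?_, ?_⟩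
  · rintro ⟨j, m⟩ ⟨i, hi, hj, hm⟩
    refine hq2 j (Finset.mem_biUnion.2 ⟨i, Finset.mem_range.2 hi, hj⟩) _ (hN j m) (hW j m) _ ?_
    change N j m (Q' j) (ρ j m)
    rw [hQ' i j hj, hρ i j hj]
    exact (hQ i j hj).2 m hm
  · intro r hr i hi
    have h2 : c r i = if i < p.len then b₀ i else σ.getD i false := by
      refine hv i r fun j hj m hm => ?_
      rw [hr (j, m) ⟨i, hi, hj, hm⟩]
      change ρ j m = v i j m
      rw [hρ i j hj]
    rw [h2]
    split_ifs with h
    · have h3 : i < ((List.range p.len).map b₀).length := by simpa using h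
      have h4 := hσ.getElem h3
      rw [← h4]
      simp
    · rw [List.getD_eq_getElem _ _ hi]

theorem main2 (I : ℕ → Set ℕ) (hI : ∀ i j n, n ∈ I i → n ∈ I j → i = j)
    (N : ℕ → ℕ → Cond → ℕ → Prop) (hN : ∀ j m, IsName (N j m))
    (hW : ∀ j m, Over (I j) (N j m)) :
    (∀ p : Cond, ∃ q, Cond.Le q p ∧ ∃ T : Finset ℕ, ∀ j, j ∉ T → ∀ m, ∃ a, N j m q a) ∨
    ∃ c : (ℕ → ℕ → ℕ) → ℕ → Bool, Measurable c ∧
      ∀ (p : Cond) (D : Set (List Bool)), (∀ τ, ∃ σ ∈ D, τ <+: σ) →
        ∃ q : Cond, q.Le p ∧ ∃ (σ : List Bool) (u : Set (ℕ × ℕ)) (ρ : ℕ → ℕ → ℕ), σ ∈ D ∧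
          (∀ x ∈ u, N x.1 x.2 q (ρ x.1 x.2)) ∧
          ∀ r : ℕ → ℕ → ℕ, (∀ x ∈ u, r x.1 x.2 = ρ x.1 x.2) →
            ∀ (i : ℕ) (hi : i < σ.length), σ[i] = c r i := by
  classical
  by_cases hcase : ∀ K m, ∃ j, m ≤ j ∧ NKR (I j) (N j) K
  · right
    have hgood : ∀ i m, ∃ j, m ≤ j ∧ (GoodA (N j) i ∨ GoodB (N j) i) := by
      intro i m
      obtain ⟨j, h1, h2⟩ := hcase (6 * i) m
      exact ⟨j, h1, window (hN j) (hW j) i h2⟩
    by_cases hA : ∀ i m, ∃ j, m ≤ j ∧ GoodA (N j) i
    · obtain ⟨f, hf, hf2⟩ := pick (fun j i => GoodA (N j) i) hA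
      choose χ hχm hχ0 hχ using hf2
      refine ⟨fun r i => χ i (r (f i)), ?_, ?_⟩
      · exact measurable_pi_lambda _ fun i => (hχm i).comp (measurable_pi_apply (f i))
      · have hdec : ∀ i (p : Cond) (b : Bool), Poss (N (f i)) (χ i) p b →
            Dec N (fun i => {f i}) (fun r i => χ i (r (f i))) i p b := by
          rintro i p b ⟨q, h1, u, v, h2, h3⟩
          refine ⟨fun _ => q, fun _ => u, fun _ => v, fun j hj => ?_, fun r hr => ?_⟩
          · rw [Finset.mem_singleton] at hj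
            rw [hj]
            exact ⟨h1, h2⟩
          · exact h3 _ (hr (f i) (Finset.mem_singleton_self _))
        refine cohen2 hI hN hW (fun i => {f i}) (fun r i => χ i (r (f i))) ?_ ?_ ?_
        · intro i i' j h1 h2
          rw [Finset.mem_singleton] at h1 h2
          exact hf.injective (h1.symm.trans h2)
        · intro i p
          obtain ⟨b, hb⟩ := hχ0 i p
          exact ⟨b, hdec i p b hb⟩
        · exact fun i p hp b => hdec i p b (hχ i p hp b)
    · push Not at hA
      obtain ⟨i₁, m₁, hA⟩ := hA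
      have hB : ∀ i m, ∃ j, m ≤ j ∧ GoodB (N j) i := by
        intro i m
        obtain ⟨j, h1, h2⟩ := hgood (max i i₁) (max m m₁)
        refine ⟨j, (le_max_left _ _).trans h1, ?_⟩
        rcases h2 with ⟨χ, h3, h4, h5⟩ | ⟨Φ, h3, h4, h5⟩
        · exact absurd ⟨χ, h3, h4, fun p hp => h5 p (hp.trans (le_max_right _ _))⟩
            (hA j ((le_max_right _ _).trans h1))
        · exact ⟨Φ, h3, h4, fun p hp => h5 p (hp.trans (le_max_left _ _))⟩
      obtain ⟨f, hf, hf2⟩ := pick (fun j i => GoodB (N j) i) hB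
      choose Φ hΦm hΦ0 hΦ using hf2
      have hne : ∀ i, f (2 * i) ≠ f (2 * i + 1) := fun i h => by
        have := hf.injective h
        omega
      refine ⟨fun r i => decide (Φ (2 * i) (r (f (2 * i))) < Φ (2 * i + 1) (r (f (2 * i + 1)))),
        ?_, ?_⟩
      · refine measurable_pi_lambda _ fun i => ?_
        have h1 : Measurable fun x : ℕ × ℕ => decide (x.1 < x.2) := Measurable.of_discrete
        exact h1.comp (((hΦm (2 * i)).comp (measurable_pi_apply (f (2 * i)))).prodMk
          ((hΦm (2 * i + 1)).comp (measurable_pi_apply (f (2 * i + 1)))))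
      · have hdec : ∀ i (p : Cond) (a b : ℕ), Poss (N (f (2 * i))) (Φ (2 * i)) p a →
            Poss (N (f (2 * i + 1))) (Φ (2 * i + 1)) p b →
            Dec N (fun i => {f (2 * i), f (2 * i + 1)}) (fun r i =>
              decide (Φ (2 * i) (r (f (2 * i))) < Φ (2 * i + 1) (r (f (2 * i + 1))))) i p
              (decide (a < b)) := by
          rintro i p a b ⟨q, h1, u, v, h2, h3⟩ ⟨q', h1', u', v', h2', h3'⟩
          refine ⟨fun j => if j = f (2 * i) then q else q', fun j => if j = f (2 * i) then u else u',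
            fun j => if j = f (2 * i) then v else v', fun j hj => ?_, fun r hr => ?_⟩
          · rw [Finset.mem_insert, Finset.mem_singleton] at hj
            rcases hj with rfl | rfl
            · beta_reduce
              rw [if_pos rfl, if_pos rfl, if_pos rfl]
              exact ⟨h1, h2⟩
            · beta_reduce
              rw [if_neg (hne i).symm, if_neg (hne i).symm, if_neg (hne i).symm]
              exact ⟨h1', h2'⟩
          · have h4 := hr (f (2 * i)) (by simp)
            have h5 := hr (f (2 * i + 1)) (by simp)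
            beta_reduce at h4 h5
            rw [if_pos rfl, if_pos rfl] at h4
            rw [if_neg (hne i).symm, if_neg (hne i).symm] at h5
            change decide (_ < _) = decide (a < b)
            rw [h3 _ h4, h3' _ h5]
        refine cohen2 hI hN hW (fun i => {f (2 * i), f (2 * i + 1)}) _ ?_ ?_ ?_
        · intro i i' j h1 h2
          simp only [Finset.mem_insert, Finset.mem_singleton] at h1 h2
          rcases h1 with h1 | h1 <;> rcases h2 with h2 | h2 <;>
            · have := hf.injective (h1.symm.trans h2)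
              omega
        · intro i p
          obtain ⟨a, ha⟩ := hΦ0 (2 * i) p
          obtain ⟨b, hb⟩ := hΦ0 (2 * i + 1) p
          exact ⟨_, hdec i p a b ha hb⟩
        · intro i p hp b
          have g1 := hΦ (2 * i) p (by omega)
          have g2 := hΦ (2 * i + 1) p (by omega)
          cases b with
          | true =>
            obtain ⟨x, hx⟩ := g1.nonempty
            obtain ⟨y, hy, hxy⟩ := g2.exists_gt x
            have h1 := hdec i p x y hx hy
            rwa [decide_eq_true hxy] at h1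
          | false =>
            obtain ⟨y, hy⟩ := g2.nonempty
            obtain ⟨x, hx, hxy⟩ := g1.exists_gt y
            have h1 := hdec i p x y hx hy
            rwa [decide_eq_false (not_lt.2 hxy.le)] at h1
  · left
    push Not at hcase
    obtain ⟨K, j₀, hK⟩ := hcase
    have hkill : ∀ j, ∃ (G : Finset (ℕ → ℕ)) (hG : G.card ≤ K), j₀ ≤ j → (∀ n ∈ I j, K ≤ n) →
        ∀ m, ∃ a, N j m (base K G hG) a := by
      intro j
      by_cases h1 : j₀ ≤ j ∧ ∀ n ∈ I j, K ≤ n
      · have h2 := hK j h1.1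
        unfold NKR at h2
        push Not at h2
        obtain ⟨G, hG, h3⟩ := h2 h1.2
        exact ⟨G, hG, fun _ _ => h3⟩
      · refine ⟨∅, by simp, fun h2 h3 => absurd ⟨h2, h3⟩ h1⟩
    choose G hG hGa using hkill
    let gg : ℕ → ℕ → (ℕ → ℕ) := fun j a => (G j).toList.getD a (fun _ => 0)
    have hgg : ∀ j, ∀ f ∈ G j, ∃ a < K, gg j a = f := by
      intro j f hf
      obtain ⟨a, ha, hfa⟩ := List.getElem_of_mem (Finset.mem_toList.2 hf)
      refine ⟨a, ?_, ?_⟩
      · rw [Finset.length_toList] at ha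
        exact ha.trans_le (hG j)
      · change (G j).toList.getD a (fun _ => 0) = f
        rw [List.getD_eq_getElem _ _ ha]
        exact hfa
    let hh : ℕ → (ℕ → ℕ) := fun a n => if h : ∃ j, n ∈ I j then gg h.choose a n else 0
    have hhh : ∀ a j n, n ∈ I j → hh a n = gg j a n := by
      intro a j n hn
      have h : ∃ j, n ∈ I j := ⟨j, hn⟩
      change (if h : ∃ j, n ∈ I j then gg h.choose a n else 0) = gg j a n
      rw [dif_pos h, hI h.choose j n h.choose_spec hn]
    intro p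
    obtain ⟨F₁, hF₁⟩ : ∃ F₁, F₁ = p.F ∪ (Finset.range K).image hh := ⟨_, rfl⟩
    have hcard : F₁.card ≤ p.len + K := by
      rw [hF₁]
      have h1 := Finset.card_union_le p.F ((Finset.range K).image hh)
      have h2 : ((Finset.range K).image hh).card ≤ (Finset.range K).card :=
        Finset.card_image_le
      rw [Finset.card_range] at h2
      have h3 := p.card_F
      omega
    have hp₁ := pad_le p (p.len + K) F₁ (by omega) hcard (by rw [hF₁]; exact Finset.subset_union_left)
    obtain ⟨p₁, hp₁e⟩ : ∃ p₁, p₁ = mkC (p.len + K) (ex p) F₁ (fun n _ => card_ex p n) hcard :=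
      ⟨_, rfl⟩
    rw [← hp₁e] at hp₁
    have hlen : p₁.len = p.len + K := by rw [hp₁e]; rfl
    have hF : ∀ a < K, hh a ∈ p₁.F := by
      intro a ha
      rw [hp₁e]
      change hh a ∈ F₁
      rw [hF₁, Finset.mem_union]
      exact Or.inr (Finset.mem_image.2 ⟨a, Finset.mem_range.2 ha, rfl⟩)
    let jn : ℕ → ℕ := fun n => if h : ∃ j, n ∈ I j then h.choose else 0
    have hjn : ∀ n j, n ∈ I j → jn n = j := by
      intro n j hn
      have h : ∃ j, n ∈ I j := ⟨j, hn⟩
      change (if h : ∃ j, n ∈ I j then h.choose else 0) = j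
      rw [dif_pos h]
      exact hI h.choose j n h.choose_spec hn
    refine ⟨p₁, hp₁, Finset.range j₀ ∪ (Finset.range (p.len + K)).image jn, fun j hj m => ?_⟩
    · rw [Finset.mem_union, not_or] at hj
      obtain ⟨h1, h2⟩ := hj
      rw [Finset.mem_range, not_lt] at h1
      have h3 : ∀ n ∈ I j, p.len + K ≤ n := by
        intro n hn
        by_contra hcon
        exact h2 (Finset.mem_image.2 ⟨n, Finset.mem_range.2 (not_le.1 hcon), hjn n j hn⟩)
      obtain ⟨a, ha⟩ := hGa j h1 (fun n hn => by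
        have := h3 n hn
        omega) m
      refine ⟨a, (hN j m).reg p₁ a fun q₁ hq₁ => ?_⟩
      obtain ⟨q₂, b, h4, h5⟩ := (hN j m).dense q₁
      have h6 := h4.trans hq₁
      obtain ⟨q₃, h7, h8⟩ := transfer (hN j m) (hW j m) (base K (G j) (hG j)) q₂ b h5
        (fun n hn => by
          have := h3 n hn
          change K ≤ n
          omega)
        (fun f hf => by
          obtain ⟨c, hc, hcf⟩ := hgg j f hf
          exact ⟨hh c, h6.2.2.1 (hF c hc), fun n hn => by rw [hhh c j n hn, hcf]⟩)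
        (fun f hf n hn hn' => by
          obtain ⟨c, hc, hcf⟩ := hgg j f hf
          rw [← hcf, ← hhh c j n hn]
          exact h6.2.2.2 (hh c) (hF c hc) n (by rw [hlen]; exact h3 n hn) hn')
      have h9 := (hN j m).uniq _ _ _ h8 ((hN j m).mono _ _ _ ha h7)
      rw [h9] at h5
      exact ⟨q₂, h4, h5⟩

end Pool.Agent.Helper71.LOC
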