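import Pool.Agent.Helper71.LOC.Main2

/-! Windows which meet only finitely many others: regrouping. -/

set_option autoImplicit false

namespace Pool.Agent.Helper71.LOC

theorem groups (I : ℕ → Set ℕ) (hI : ∀ j, ∃ m, ∀ k, m ≤ k → Disjoint (I j) (I k)) :
    ∃ nn : ℕ → ℕ, nn 0 = 0 ∧ StrictMono nn ∧
      ∀ g j k, j < nn g → nn (g + 1) ≤ k → Disjoint (I j) (I k) := by
  choose m hm using hI
  let M : ℕ → ℕ := fun x => (Finset.range x).sup m
  let nn : ℕ → ℕ := fun g => Nat.rec 0 (fun _ x => max (x + 1) (M x)) g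
  have h1 : ∀ g, nn (g + 1) = max (nn g + 1) (M (nn g)) := fun g => rfl
  refine ⟨nn, rfl, strictMono_nat_of_lt_succ fun g => ?_, fun g j k hj hk => ?_⟩
  · rw [h1]
    exact (Nat.lt_succ_self _).trans_le (le_max_left _ _)
  · refine hm j k ?_
    rw [h1] at hk
    exact (Finset.le_sup (f := m) (Finset.mem_range.2 hj)).trans ((le_max_right _ _).trans hk)

/-- the grouped names -/
def NG (nn : ℕ → ℕ) (e : ℕ) (N : ℕ → ℕ → Cond → ℕ → Prop) (i m : ℕ) (p : Cond) (a : ℕ) : Prop :=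
  if nn (2 * i + e) + (Nat.unpair m).1 < nn (2 * i + e + 1) then
    N (nn (2 * i + e) + (Nat.unpair m).1) (Nat.unpair m).2 p a else a = 0

/-- the grouped windows -/
def IG (nn : ℕ → ℕ) (e : ℕ) (I : ℕ → Set ℕ) (i : ℕ) : Set ℕ :=
  {n | ∃ j, nn (2 * i + e) ≤ j ∧ j < nn (2 * i + e + 1) ∧ n ∈ I j}

/-- the grouped sequence -/
def RG (nn : ℕ → ℕ) (e : ℕ) (r : ℕ → ℕ → ℕ) (i m : ℕ) : ℕ :=
  if nn (2 * i + e) + (Nat.unpair m).1 < nn (2 * i + e + 1) then
    r (nn (2 * i + e) + (Nat.unpair m).1) (Nat.unpair m).2 else 0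

theorem half (nn : ℕ → ℕ) (hmono : StrictMono nn) (I : ℕ → Set ℕ)
    (hdis : ∀ g j k, j < nn g → nn (g + 1) ≤ k → Disjoint (I j) (I k)) (e : ℕ)
    (N : ℕ → ℕ → Cond → ℕ → Prop) (hN : ∀ j m, IsName (N j m))
    (hW : ∀ j m, Over (I j) (N j m)) :
    (∀ p : Cond, ∃ q, Cond.Le q p ∧ ∃ T : Finset ℕ, ∀ i, i ∉ T → ∀ j, nn (2 * i + e) ≤ j →
      j < nn (2 * i + e + 1) → ∀ m, ∃ a, N j m q a) ∨
    ∃ c : (ℕ → ℕ → ℕ) → ℕ → Bool, Measurable c ∧
      ∀ (p : Cond) (D : Set (List Bool)), (∀ τ, ∃ σ ∈ D, τ <+: σ) →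
        ∃ q : Cond, q.Le p ∧ ∃ (σ : List Bool) (u : Set (ℕ × ℕ)) (ρ : ℕ → ℕ → ℕ), σ ∈ D ∧
          (∀ x ∈ u, N x.1 x.2 q (ρ x.1 x.2)) ∧
          ∀ r' : ℕ → ℕ → ℕ, (∀ x ∈ u, r' x.1 x.2 = ρ x.1 x.2) →
            ∀ (i : ℕ) (hi : i < σ.length), σ[i] = c r' i := by
  have hlt : ∀ i i' n, n ∈ IG nn e I i → n ∈ IG nn e I i' → ¬ i < i' := by
    rintro i i' n ⟨j, _, h2, h3⟩ ⟨k, h4, _, h6⟩ h
    refine Set.disjoint_left.1 (hdis (2 * i + e + 1) j k h2 ?_) h3 h6
    exact (hmono.monotone (by omega)).trans h4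
  have hI' : ∀ i i' n, n ∈ IG nn e I i → n ∈ IG nn e I i' → i = i' := by
    intro i i' n h1 h2
    rcases lt_trichotomy i i' with h | h | h
    · exact absurd h (hlt i i' n h1 h2)
    · exact h
    · exact absurd h (hlt i' i n h2 h1)
  have hN' : ∀ i m, IsName (NG nn e N i m) := by
    intro i m
    unfold NG
    by_cases h : nn (2 * i + e) + (Nat.unpair m).1 < nn (2 * i + e + 1)
    · simp only [if_pos h]
      exact hN _ _
    · simp only [if_neg h]
      refine ⟨fun p q a h1 _ => h1, fun p a b h1 h2 => h1.trans h2.symm,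
        fun p => ⟨p, 0, ⟨le_rfl, fun _ _ => rfl, subset_rfl, fun x _ n h1 h2 => absurd h2 (not_lt.2 h1)⟩,
          rfl⟩, fun p a h1 => ?_⟩
      obtain ⟨_, _, h2⟩ := h1 p ⟨le_rfl, fun _ _ => rfl, subset_rfl,
        fun x _ n h1 h2 => absurd h2 (not_lt.2 h1)⟩
      exact h2
  have hW' : ∀ i m, Over (IG nn e I i) (NG nn e N i m) := by
    intro i m p q a h1 h2 h3
    unfold NG
    by_cases h : nn (2 * i + e) + (Nat.unpair m).1 < nn (2 * i + e + 1)
    · simp only [if_pos h]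
      exact hW _ _ p q a h1 h2 fun n hn => h3 n ⟨_, Nat.le_add_right _ _, h, hn⟩
    · simp only [if_neg h]
      exact id
  rcases main2 (IG nn e I) hI' (NG nn e N) hN' hW' with hA | ⟨c, hc, hB⟩
  · left
    intro p
    obtain ⟨q, hq, T, hT⟩ := hA p
    refine ⟨q, hq, T, fun i hi j h1 h2 m => ?_⟩
    obtain ⟨a, ha⟩ := hT i hi (Nat.pair (j - nn (2 * i + e)) m)
    unfold NG at ha
    rw [Nat.unpair_pair] at ha
    dsimp only at ha
    rw [Nat.add_sub_cancel' h1, if_pos h2] at ha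
    exact ⟨a, ha⟩
  · right
    refine ⟨fun r => c (RG nn e r), hc.comp ?_, fun p D hD => ?_⟩
    · refine measurable_pi_lambda _ fun i => measurable_pi_lambda _ fun m => ?_
      unfold RG
      by_cases h : nn (2 * i + e) + (Nat.unpair m).1 < nn (2 * i + e + 1)
      · simp only [if_pos h]
        exact (measurable_pi_apply _).comp (measurable_pi_apply _)
      · simp only [if_neg h]
        exact measurable_const
    · classical
      obtain ⟨q, hq, σ, u, ρ, hσ, hu, hr⟩ := hB p D hD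
      let ρ' : ℕ → ℕ → ℕ := fun j m => if h : ∃ a, N j m q a then h.choose else 0
      have hρ' : ∀ j m a, N j m q a → ρ' j m = a := by
        intro j m a ha
        have h : ∃ a, N j m q a := ⟨a, ha⟩
        change (if h : ∃ a, N j m q a then h.choose else 0) = a
        rw [dif_pos h]
        exact (hN j m).uniq q _ _ h.choose_spec ha
      refine ⟨q, hq, σ, {x | N x.1 x.2 q (ρ' x.1 x.2)}, ρ', hσ, fun x hx => hx, fun r' hr' => ?_⟩
      refine hr (RG nn e r') fun y hy => ?_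
      have h1 := hu y hy
      unfold NG at h1
      unfold RG
      by_cases h : nn (2 * y.1 + e) + (Nat.unpair y.2).1 < nn (2 * y.1 + e + 1)
      · rw [if_pos h] at h1 ⊢
        have h2 := hρ' _ _ _ h1
        have h3 := hr' (nn (2 * y.1 + e) + (Nat.unpair y.2).1, (Nat.unpair y.2).2) (by
          change N _ _ q (ρ' _ _)
          rw [h2]
          exact h1)
        dsimp only at h3
        rw [h3, h2]
      · rw [if_neg h] at h1 ⊢
        exact h1.symm

theorem main3 (I : ℕ → Set ℕ) (hI : ∀ j, ∃ m, ∀ k, m ≤ k → Disjoint (I j) (I k))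
    (N : ℕ → ℕ → Cond → ℕ → Prop) (hN : ∀ j m, IsName (N j m))
    (hW : ∀ j m, Over (I j) (N j m)) :
    (∀ p : Cond, ∃ q, Cond.Le q p ∧ ∃ T : Finset ℕ, ∀ j, j ∉ T → ∀ m, ∃ a, N j m q a) ∨
    ∃ c : (ℕ → ℕ → ℕ) → ℕ → Bool, Measurable c ∧
      ∀ (p : Cond) (D : Set (List Bool)), (∀ τ, ∃ σ ∈ D, τ <+: σ) →
        ∃ q : Cond, q.Le p ∧ ∃ (σ : List Bool) (u : Set (ℕ × ℕ)) (ρ : ℕ → ℕ → ℕ), σ ∈ D ∧
          (∀ x ∈ u, N x.1 x.2 q (ρ x.1 x.2)) ∧
          ∀ r' : ℕ → ℕ → ℕ, (∀ x ∈ u, r' x.1 x.2 = ρ x.1 x.2) →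
            ∀ (i : ℕ) (hi : i < σ.length), σ[i] = c r' i := by
  obtain ⟨nn, h0, hmono, hdis⟩ := groups I hI
  rcases half nn hmono I hdis 0 N hN hW with hA | hB
  · rcases half nn hmono I hdis 1 N hN hW with hA' | hB
    · left
      intro p
      obtain ⟨q, hq, T, hT⟩ := hA p
      obtain ⟨q', hq', T', hT'⟩ := hA' q
      classical
      refine ⟨q', hq'.trans hq, (T ∪ T').biUnion fun i => Finset.range (nn (2 * i + 2)),
        fun j hj m => ?_⟩
      rw [Finset.mem_biUnion] at hj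
      push Not at hj
      obtain ⟨g, hg1, hg2⟩ : ∃ g, nn g ≤ j ∧ j < nn (g + 1) := by
        have hex : ∃ g, j < nn g := ⟨j + 1, (Nat.lt_succ_self j).trans_le (hmono.id_le (j + 1))⟩
        refine ⟨Nat.find hex - 1, ?_, ?_⟩
        · by_contra hcon
          have h1 := Nat.find_min' hex (not_le.1 hcon)
          have h2 : Nat.find hex ≠ 0 := by
            intro h3
            have h4 := Nat.find_spec hex
            rw [h3, h0] at h4
            exact absurd h4 (Nat.not_lt_zero j)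
          omega
        · have h2 : Nat.find hex ≠ 0 := by
            intro h3
            have h4 := Nat.find_spec hex
            rw [h3, h0] at h4
            exact absurd h4 (Nat.not_lt_zero j)
          have h5 : Nat.find hex - 1 + 1 = Nat.find hex := by omega
          rw [h5]
          exact Nat.find_spec hex
      rcases Nat.even_or_odd' g with ⟨i, rfl | rfl⟩
      · have hi : i ∉ T := by
          intro h
          refine hj i (Finset.mem_union_left _ h) (Finset.mem_range.2 ?_)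
          exact hg2.trans_le (hmono.monotone (by omega))
        obtain ⟨a, ha⟩ := hT i hi j hg1 hg2 m
        exact ⟨a, (hN j m).mono _ _ _ ha hq'⟩
      · have hi : i ∉ T' := by
          intro h
          refine hj i (Finset.mem_union_right _ h) (Finset.mem_range.2 ?_)
          exact hg2
        exact hT' i hi j hg1 hg2 m
    · exact Or.inr hB
  · exact Or.inr hB

end Pool.Agent.Helper71.LOC
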