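import Pool.Agent.Helper71.LOC.Adapt

/-! Read-once procedures: after the digits `s` the slalom is read over the finite set `I s`, which is
disjoint from the sets read before. -/

set_option autoImplicit false

namespace Pool.Agent.Helper71.LOC

/-- the digit after `s` depends on `S` only over `I s` -/
def Reads2 (I : List ℕ → Finset ℕ) (φ : List ℕ → (ℕ → Finset ℕ) → ℕ) : Prop :=
  ∀ s S S', (∀ n ∈ I s, S n = S' n) → φ s S = φ s S'

variable {I : List ℕ → Finset ℕ} {φ : List ℕ → (ℕ → Finset ℕ) → ℕ}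

/-- the coordinates read before the digit number `j` -/
def Used (I : List ℕ → Finset ℕ) (φ : List ℕ → (ℕ → Finset ℕ) → ℕ) (S : ℕ → Finset ℕ) (j : ℕ) :
    Finset ℕ := (Finset.range j).biUnion fun i => I (pre φ S i)

theorem mem_used {S : ℕ → Finset ℕ} {i j n : ℕ} (hi : i < j) (hn : n ∈ I (pre φ S i)) :
    n ∈ Used I φ S j := Finset.mem_biUnion.2 ⟨i, Finset.mem_range.2 hi, hn⟩

theorem pre_congr2 (hφ : Reads2 I φ) {S S' : ℕ → Finset ℕ} (j : ℕ)
    (h : ∀ n ∈ Used I φ S j, S n = S' n) : pre φ S j = pre φ S' j := by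
  induction j with
  | zero => rfl
  | succ j ih =>
    have h1 := ih fun n hn => h n (by
      obtain ⟨i, hi, hn⟩ := Finset.mem_biUnion.1 hn
      exact mem_used (by have := Finset.mem_range.1 hi; omega) hn)
    rw [pre, pre, ← h1, hφ (pre φ S j) S S' fun n hn => h n (mem_used (Nat.lt_succ_self j) hn)]

theorem used_sub {S : ℕ → Finset ℕ} {i j : ℕ} (hij : i ≤ j) : Used I φ S i ⊆ Used I φ S j := by
  intro n hn
  obtain ⟨l, hl, hn⟩ := Finset.mem_biUnion.1 hn
  exact mem_used (by have := Finset.mem_range.1 hl; omega) hn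

theorem pre_congr3 (hφ : Reads2 I φ) {S S' : ℕ → Finset ℕ} (j : ℕ)
    (h : ∀ n ∈ Used I φ S j, S n = S' n) (i : ℕ) (hi : i ≤ j) : pre φ S i = pre φ S' i :=
  pre_congr2 hφ i fun n hn => h n (used_sub hi hn)

theorem used_congr (hφ : Reads2 I φ) {S S' : ℕ → Finset ℕ} (j : ℕ)
    (h : ∀ n ∈ Used I φ S j, S n = S' n) : Used I φ S' j = Used I φ S j := by
  unfold Used
  refine Finset.biUnion_congr rfl fun i hi => ?_
  rw [pre_congr3 hφ j h i (le_of_lt (Finset.mem_range.1 hi))]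

theorem pre_prefix (S : ℕ → Finset ℕ) {i j : ℕ} (h : i ≤ j) : pre φ S i <+: pre φ S j := by
  induction j, h using Nat.le_induction with
  | base => exact List.prefix_rfl
  | succ j _ ih => exact ih.trans (List.prefix_append _ _)

theorem disj_used (hI : ∀ s t, s <+: t → s ≠ t → Disjoint (I s) (I t)) (S : ℕ → Finset ℕ) {i j : ℕ}
    (hij : i ≤ j) : ∀ n ∈ I (pre φ S j), n ∉ Used I φ S i := by
  intro n hn hn'
  obtain ⟨l, hl, hn'⟩ := Finset.mem_biUnion.1 hn'
  have hl' := Finset.mem_range.1 hl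
  refine Finset.disjoint_left.1 (hI (pre φ S l) (pre φ S j) (pre_prefix S (by omega)) ?_) hn' hn
  intro h
  have h1 := congrArg List.length h
  rw [pre_length, pre_length] at h1
  omega

/-- the possible digits after `s` -/
def Pos2 (I : List ℕ → Finset ℕ) (φ : List ℕ → (ℕ → Finset ℕ) → ℕ) (s : List ℕ)
    (G : Finset (ℕ → ℕ)) : Set ℕ :=
  {a | ∃ S : ℕ → Finset ℕ, (∀ n, (S n).card ≤ n) ∧ (∀ f ∈ G, ∀ n ∈ I s, f n ∈ S n) ∧ φ s S = a}

theorem Pos2_anti {s : List ℕ} {G G' : Finset (ℕ → ℕ)} (h : G ⊆ G') :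
    Pos2 I φ s G' ⊆ Pos2 I φ s G := by
  rintro a ⟨S, h1, h2, h3⟩
  exact ⟨S, h1, fun f hf => h2 f (h hf), h3⟩

/-- `K` functions cannot decide the digit after `s` -/
def NK2 (I : List ℕ → Finset ℕ) (φ : List ℕ → (ℕ → Finset ℕ) → ℕ) (s : List ℕ) (K : ℕ) : Prop :=
  (∀ n ∈ I s, K ≤ n) ∧ ∀ G : Finset (ℕ → ℕ), G.card ≤ K → ∀ a, ∃ b ∈ Pos2 I φ s G, b ≠ a

theorem colour2 (s : List ℕ) (i : ℕ) (h : NK2 I φ s (3 * i)) :
    ∃ χ : ℕ → Bool, ∀ G : Finset (ℕ → ℕ), G.card ≤ i → ∀ b, ∃ x ∈ Pos2 I φ s G, χ x = b := by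
  classical
  by_cases hfin : ∃ G : Finset (ℕ → ℕ), G.card ≤ i ∧ (Pos2 I φ s G).Finite
  · obtain ⟨G₀, hG₀, hA⟩ := hfin
    obtain ⟨ψ, hψ⟩ := lovasz hA.toFinset
      {X | ∃ G : Finset (ℕ → ℕ), G.card ≤ i ∧ X = Pos2 I φ s G ∩ Pos2 I φ s G₀} (by
        rintro X ⟨G, hG, rfl⟩ Y ⟨G', hG', rfl⟩ v
        have hc : (G ∪ G' ∪ G₀).card ≤ 3 * i := by
          have h1 := Finset.card_union_le (G ∪ G') G₀
          have h2 := Finset.card_union_le G G'
          omega
        obtain ⟨z, hz, hzv⟩ := h.2 (G ∪ G' ∪ G₀) hc v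
        have a1 : G ⊆ G ∪ G' ∪ G₀ := by
          intro x hx
          simp [hx]
        have a2 : G' ⊆ G ∪ G' ∪ G₀ := by
          intro x hx
          simp [hx]
        have a3 : G₀ ⊆ G ∪ G' ∪ G₀ := by
          intro x hx
          simp [hx]
        exact ⟨z, ⟨Pos2_anti a1 hz, Pos2_anti a3 hz⟩, ⟨Pos2_anti a2 hz, Pos2_anti a3 hz⟩, hzv⟩)
    refine ⟨ψ, fun G hG b => ?_⟩
    obtain ⟨x, hx, hxb⟩ := hψ _ ⟨G, hG, rfl⟩ (fun x hx => by
      rw [Set.Finite.mem_toFinset]
      exact hx.2) b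
    exact ⟨x, hx.1, hxb⟩
  · push Not at hfin
    have hcount : {X | ∃ G : Finset (ℕ → ℕ), G.card ≤ i ∧ X = Pos2 I φ s G}.Countable := by
      let m := (I s).sup id + 1
      have hm : ∀ n ∈ I s, n < m := fun n hn => Nat.lt_succ_of_le (Finset.le_sup (f := id) hn)
      let ext : (Fin m → ℕ) → ℕ → ℕ := fun g n => if h : n < m then g ⟨n, h⟩ else 0
      refine (Set.countable_range fun t : Finset (Fin m → ℕ) => Pos2 I φ s (t.image ext)).mono ?_
      rintro X ⟨G, -, rfl⟩
      refine ⟨G.image fun f (i : Fin m) => f i, ?_⟩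
      have key : ∀ S : ℕ → Finset ℕ, (∀ f ∈ (G.image fun f (i : Fin m) => f i).image ext,
          ∀ n ∈ I s, f n ∈ S n) ↔ (∀ f ∈ G, ∀ n ∈ I s, f n ∈ S n) := by
        intro S
        constructor
        · intro h1 f hf n h2
          have h4 := h1 (ext fun i => f i) (Finset.mem_image_of_mem _
            (Finset.mem_image_of_mem _ hf)) n h2
          change (if h : n < m then f n else 0) ∈ S n at h4
          rwa [dif_pos (hm n h2)] at h4
        · intro h1 g hg n h2
          obtain ⟨g', hg', rfl⟩ := Finset.mem_image.1 hg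
          obtain ⟨f, hf, rfl⟩ := Finset.mem_image.1 hg'
          change (if h : n < m then f n else 0) ∈ S n
          rw [dif_pos (hm n h2)]
          exact h1 f hf n h2
      ext a
      constructor
      · rintro ⟨S, h1, h2, h3⟩
        exact ⟨S, h1, (key S).1 h2, h3⟩
      · rintro ⟨S, h1, h2, h3⟩
        exact ⟨S, h1, (key S).2 h2, h3⟩
    obtain ⟨A, hA⟩ := hcount.exists_eq_range ⟨_, ∅, by simp, rfl⟩
    have hinf : ∀ n, (A n).Infinite := by
      intro n
      have h1 : A n ∈ Set.range A := ⟨n, rfl⟩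
      rw [← hA] at h1
      obtain ⟨G, hG, h2⟩ := h1
      rw [h2]
      exact hfin G hG
    obtain ⟨χ, hχ⟩ := bern A hinf
    refine ⟨χ, fun G hG b => ?_⟩
    have h1 : Pos2 I φ s G ∈ Set.range A := by
      rw [← hA]
      exact ⟨G, hG, rfl⟩
    obtain ⟨n, hn⟩ := h1
    rw [← hn]
    exact hχ n b

open Classical in
/-- a colouring -/
noncomputable def chi2 (I : List ℕ → Finset ℕ) (φ : List ℕ → (ℕ → Finset ℕ) → ℕ) (s : List ℕ)
    (i : ℕ) : ℕ → Bool :=
  if h : ∃ χ : ℕ → Bool, ∀ G : Finset (ℕ → ℕ), G.card ≤ i → ∀ b, ∃ x ∈ Pos2 I φ s G, χ x = b then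
    h.choose else fun _ => false

theorem chi2_spec (s : List ℕ) (i : ℕ) (h : NK2 I φ s (3 * i)) (G : Finset (ℕ → ℕ))
    (hG : G.card ≤ i) (b : Bool) : ∃ x ∈ Pos2 I φ s G, chi2 I φ s i x = b := by
  have h1 := colour2 s i h
  unfold chi2
  rw [dif_pos h1]
  exact h1.choose_spec G hG b

open Classical in
/-- the bits read off the first `j` digits of `x` -/
noncomputable def bits2 (I : List ℕ → Finset ℕ) (φ : List ℕ → (ℕ → Finset ℕ) → ℕ) (x : ℕ → ℕ) :
    ℕ → List Bool
  | 0 => []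
  | j + 1 => if NK2 I φ ((List.range j).map x) (3 * (bits2 I φ x j).length) then
      bits2 I φ x j ++ [chi2 I φ ((List.range j).map x) (bits2 I φ x j).length (x j)]
      else bits2 I φ x j

theorem bits2_congr {x y : ℕ → ℕ} (j : ℕ)
    (h : ∀ i < j, x i = y i) : bits2 I φ x j = bits2 I φ y j := by
  induction j with
  | zero => rfl
  | succ j ih =>
    have h1 := ih fun i hi => h i (by omega)
    have h2 := px_congr (x := x) (y := y) (j := j) fun i hi => h i (by omega)
    rw [bits2, bits2, h1, h2, h j (by omega)]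

theorem bits2_prefix {x : ℕ → ℕ} {i j : ℕ} (h : i ≤ j) : bits2 I φ x i <+: bits2 I φ x j := by
  induction j, h using Nat.le_induction with
  | base => exact List.prefix_rfl
  | succ j _ ih =>
    refine ih.trans ?_
    rw [bits2]
    split_ifs with h1
    · exact List.prefix_append _ _
    · exact List.prefix_rfl

open Classical in
/-- the Cohen real computed from `x` -/
noncomputable def coh2 (I : List ℕ → Finset ℕ) (φ : List ℕ → (ℕ → Finset ℕ) → ℕ) (x : ℕ → ℕ)
    (i : ℕ) : Bool := decide (∃ j, (bits2 I φ x j)[i]? = some true)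

theorem coh2_eq {x : ℕ → ℕ} {j : ℕ} {σ : List Bool} (h : bits2 I φ x j = σ) (i : ℕ)
    (hi : i < σ.length) : σ[i] = coh2 I φ x i := by
  classical
  have key : ∀ j', (bits2 I φ x j')[i]? = some true → σ[i] = true := by
    intro j' hj'
    obtain ⟨h1, h2⟩ := List.getElem?_eq_some_iff.1 hj'
    rcases le_total j j' with h3 | h3
    · have h4 := bits2_prefix (I := I) (φ := φ) (x := x) h3
      rw [h] at h4
      rw [← h2]
      exact h4.getElem hi
    · have h4 := bits2_prefix (I := I) (φ := φ) (x := x) h3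
      rw [h] at h4
      rw [← h2]
      exact (h4.getElem h1).symm
  unfold coh2
  cases hσ : σ[i] with
  | true =>
    refine (decide_eq_true ⟨j, ?_⟩).symm
    rw [h, List.getElem?_eq_getElem hi, hσ]
  | false =>
    refine (decide_eq_false ?_).symm
    rintro ⟨j', hj'⟩
    rw [key j' hj'] at hσ
    exact absurd hσ (by decide)

theorem coh2_meas (I : List ℕ → Finset ℕ) (φ : List ℕ → (ℕ → Finset ℕ) → ℕ) :
    Measurable (coh2 I φ) := by
  refine measurable_pi_lambda _ fun i => measurable_to_bool ?_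
  have h1 : (fun x => coh2 I φ x i) ⁻¹' {true} =
      ⋃ j, {x | (bits2 I φ x j)[i]? = some true} := by
    ext x
    simp [coh2]
  rw [h1]
  refine MeasurableSet.iUnion fun j => meas_fin j _ fun x y h => ?_
  rw [bits2_congr j h]

end Pool.Agent.Helper71.LOC
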