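import Pool.Agent.Helper71.LOC.Once
import Pool.Agent.Helper71.LOC.Adapt2

/-! Read-once procedures: the theorem. -/

set_option autoImplicit false

namespace Pool.Agent.Helper71.LOC

variable {I : List ℕ → Finset ℕ} {φ : List ℕ → (ℕ → Finset ℕ) → ℕ}

theorem thr_of_le {p q : Cond} (h : q.Le p) {S : ℕ → Finset ℕ} (hS : Thr q S) : Thr p S := by
  refine ⟨hS.1, fun n hn => (hS.2.1 n (hn.trans_le h.1)).trans (h.2.1 n hn), fun x hx n hn => ?_⟩
  rcases lt_or_ge n q.len with h1 | h1
  · rw [hS.2.1 n h1]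
    exact h.2.2.2 x hx n hn h1
  · exact hS.2.2 x (h.2.2.1 hx) n h1

theorem claimA2 (hI : ∀ s t, s <+: t → s ≠ t → Disjoint (I s) (I t)) (hφ : Reads2 I φ) (p : Cond)
    (hund : ¬ ∃ q, Cond.Le q p ∧ ∃ x : ℕ → ℕ, ∀ S, Thr q S → dig φ S = x)
    (S : ℕ → Finset ℕ) (hS : Thr p S) (j K : ℕ) :
    ∃ S', Thr p S' ∧ (∀ n ∈ Used I φ S j, S n = S' n) ∧ ∃ i, j ≤ i ∧ NK2 I φ (pre φ S' i) K := by
  classical
  by_contra hcon
  push Not at hcon
  obtain ⟨M, hM⟩ : ∃ M, M = p.len + K := ⟨_, rfl⟩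
  let P : ℕ → Prop := fun c => ∃ S' j', Thr p S' ∧ (∀ n ∈ Used I φ S j, S n = S' n) ∧ j ≤ j' ∧
    (Finset.range M ∩ Used I φ S' j').card = c
  have hbound : ∀ (S' : ℕ → Finset ℕ) j', (Finset.range M ∩ Used I φ S' j').card ≤ M := by
    intro S' j'
    have h1 := Finset.card_le_card (Finset.inter_subset_left (s₁ := Finset.range M)
      (s₂ := Used I φ S' j'))
    rwa [Finset.card_range] at h1
  have hP0 : P (Finset.range M ∩ Used I φ S j).card := ⟨S, j, hS, fun _ _ => rfl, le_rfl, rfl⟩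
  obtain ⟨S', j', hS', hagr, hjj, hc⟩ : P (Nat.findGreatest P M) :=
    Nat.findGreatest_spec (hbound S j) hP0
  have hagr2 : ∀ S'' : ℕ → Finset ℕ, (∀ n ∈ Used I φ S' j', S' n = S'' n) →
      ∀ n ∈ Used I φ S j, S n = S'' n := by
    intro S'' h n hn
    rw [hagr n hn]
    refine h n (used_sub hjj ?_)
    rw [used_congr hφ j hagr]
    exact hn
  have hmax : ∀ S'', Thr p S'' → (∀ n ∈ Used I φ S' j', S' n = S'' n) → ∀ i, j' ≤ i →
      ∀ n ∈ I (pre φ S'' i), M ≤ n := by
    intro S'' h1 h2 i hi n hn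
    by_contra hlt
    have h3 : P (Finset.range M ∩ Used I φ S'' (i + 1)).card :=
      ⟨S'', i + 1, h1, hagr2 S'' h2, by omega, rfl⟩
    have h4 := Nat.le_findGreatest (hbound S'' (i + 1)) h3
    rw [← hc] at h4
    have h5 : (Finset.range M ∩ Used I φ S' j').card <
        (Finset.range M ∩ Used I φ S'' (i + 1)).card := by
      refine Finset.card_lt_card ?_
      rw [← used_congr hφ j' h2, Finset.ssubset_iff]
      refine ⟨n, fun h => ?_, ?_⟩
      · exact disj_used hI S'' hi n hn (Finset.mem_inter.1 h).2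
      · intro l hl
        rcases Finset.mem_insert.1 hl with rfl | hl
        · exact Finset.mem_inter.2 ⟨Finset.mem_range.2 (not_le.1 hlt),
            mem_used (Nat.lt_succ_self i) hn⟩
        · obtain ⟨a1, a2⟩ := Finset.mem_inter.1 hl
          exact Finset.mem_inter.2 ⟨a1, used_sub (by omega) a2⟩
    omega
  have hkill : ∀ s : List ℕ, ∃ G : Finset (ℕ → ℕ), G.card ≤ K ∧ ∃ a,
      ((∀ n ∈ I s, K ≤ n) → ¬ NK2 I φ s K → ∀ b ∈ Pos2 I φ s G, b = a) := by
    intro s
    by_cases h : (∀ n ∈ I s, K ≤ n) ∧ ¬ NK2 I φ s K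
    · have h1 := h.2
      unfold NK2 at h1
      push Not at h1
      obtain ⟨G, hG, a, ha⟩ := h1 h.1
      exact ⟨G, hG, a, fun _ _ => ha⟩
    · exact ⟨∅, by simp, 0, fun h1 h2 => absurd ⟨h1, h2⟩ h⟩
  choose G hG a ha using hkill
  let t : ℕ → List ℕ := fun m => Nat.rec (pre φ S' j') (fun _ s => s ++ [a s]) m
  have ht : ∀ m, t (m + 1) = t m ++ [a (t m)] := fun m => rfl
  have htl : ∀ m, (t m).length = j' + m := by
    intro m
    induction m with
    | zero => exact pre_length _ _ _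
    | succ m ih => rw [ht, List.length_append, ih]; rfl
  have htp : ∀ m m', m ≤ m' → t m <+: t m' := by
    intro m m' h
    induction m', h using Nat.le_induction with
    | base => exact List.prefix_rfl
    | succ m' _ ih => exact ih.trans (by rw [ht]; exact List.prefix_append _ _)
  have htd : ∀ m m' n, m < m' → n ∈ I (t m) → n ∉ I (t m') := by
    intro m m' n h h1 h2
    refine Finset.disjoint_left.1 (hI _ _ (htp m m' h.le) fun h3 => ?_) h1 h2
    have h4 := congrArg List.length h3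
    rw [htl, htl] at h4
    omega
  let gg : List ℕ → ℕ → (ℕ → ℕ) := fun s b => (G s).toList.getD b (fun _ => 0)
  have hgg : ∀ s, ∀ f ∈ G s, ∃ b < K, gg s b = f := by
    intro s f hf
    obtain ⟨b, hb, hfb⟩ := List.getElem_of_mem (Finset.mem_toList.2 hf)
    refine ⟨b, ?_, ?_⟩
    · rw [Finset.length_toList] at hb
      exact hb.trans_le (hG s)
    · change (G s).toList.getD b (fun _ => 0) = f
      rw [List.getD_eq_getElem _ _ hb]
      exact hfb
  let hh : ℕ → (ℕ → ℕ) := fun b n => if h : ∃ m, n ∈ I (t m) then gg (t h.choose) b n else 0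
  have hhh : ∀ b m n, n ∈ I (t m) → hh b n = gg (t m) b n := by
    intro b m n h1
    have h : ∃ m, n ∈ I (t m) := ⟨m, h1⟩
    change (if h : ∃ m, n ∈ I (t m) then gg (t h.choose) b n else 0) = _
    rw [dif_pos h]
    have h4 : h.choose = m := by
      rcases lt_trichotomy h.choose m with h5 | h5 | h5
      · exact absurd h1 (htd _ _ n h5 h.choose_spec)
      · exact h5
      · exact absurd h.choose_spec (htd _ _ n h5 h1)
    rw [h4]
  obtain ⟨F₁, hF₁⟩ : ∃ F₁, F₁ = p.F ∪ (Finset.range K).image hh := ⟨_, rfl⟩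
  have hcard : F₁.card ≤ M := by
    rw [hF₁]
    have h1 := Finset.card_union_le p.F ((Finset.range K).image hh)
    have h2 : ((Finset.range K).image hh).card ≤ (Finset.range K).card := Finset.card_image_le
    rw [Finset.card_range] at h2
    have h3 := p.card_F
    omega
  have hpF : p.F ⊆ F₁ := by
    rw [hF₁]
    exact Finset.subset_union_left
  have hF : ∀ b < K, hh b ∈ F₁ := by
    intro b hb
    rw [hF₁, Finset.mem_union]
    exact Or.inr (Finset.mem_image.2 ⟨b, Finset.mem_range.2 hb, rfl⟩)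
  obtain ⟨N, hN⟩ : ∃ N, N = M + (Used I φ S' j').sup id + 1 := ⟨_, rfl⟩
  have hUN : ∀ n ∈ Used I φ S' j', n < N := by
    intro n hn
    have := Finset.le_sup (f := id) hn
    simp only [id] at this
    omega
  let g : ℕ → Finset ℕ := fun n => if n ∈ Used I φ S' j' ∨ n < p.len then S' n else
    if n < M then im p.F n else im F₁ n
  have hg : ∀ n < N, (g n).card ≤ n := by
    intro n _
    change (if n ∈ Used I φ S' j' ∨ n < p.len then S' n else
      if n < M then im p.F n else im F₁ n).card ≤ n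
    split_ifs with h1 h2
    · exact hS'.1 n
    · push Not at h1
      exact (card_im _ _).trans (p.card_F.trans h1.2)
    · exact (card_im _ _).trans (hcard.trans (not_lt.1 h2))
  obtain ⟨q₁, hq₁⟩ : ∃ q₁, q₁ = mkC N g F₁ hg (hcard.trans (by omega)) := ⟨_, rfl⟩
  have hle : q₁.Le p := by
    rw [hq₁]
    refine mkC_le _ _ (by omega) (fun n hn => ?_) hpF fun x hx n hn _ => ?_
    · change (if n ∈ Used I φ S' j' ∨ n < p.len then S' n else
        if n < M then im p.F n else im F₁ n) = p.s n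
      rw [if_pos (Or.inr hn)]
      exact hS'.2.1 n hn
    · change x n ∈ (if n ∈ Used I φ S' j' ∨ n < p.len then S' n else
        if n < M then im p.F n else im F₁ n)
      split_ifs with h1 h2
      · exact hS'.2.2 x hx n hn
      · exact mem_im hx n
      · exact mem_im (hpF hx) n
  have hs₁ : ∀ n < N, q₁.s n = g n := by
    intro n hn
    rw [hq₁]
    change (if n < N then g n else ∅) = _
    rw [if_pos hn]
  have hl₁ : q₁.len = N := by rw [hq₁]; rfl
  have hF₁' : q₁.F = F₁ := by rw [hq₁]; rfl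
  have main : ∀ S'', Thr q₁ S'' → ∀ m, pre φ S'' (j' + m) = t m := by
    intro S'' hS''
    have hp := thr_of_le hle hS''
    have hag : ∀ n ∈ Used I φ S' j', S' n = S'' n := by
      intro n hn
      rw [hS''.2.1 n (by rw [hl₁]; exact hUN n hn), hs₁ n (hUN n hn)]
      exact (if_pos (Or.inl hn)).symm
    intro m
    induction m with
    | zero => exact (pre_congr2 hφ j' hag).symm
    | succ m ih =>
      have h1 := hcon S'' hp (hagr2 S'' hag) (j' + m) (by omega)
      have h2 := hmax S'' hp hag (j' + m) (by omega)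
      have h5 := disj_used (φ := φ) hI S'' (i := j') (j := j' + m) (Nat.le_add_right _ _)
      rw [used_congr hφ j' hag] at h5
      rw [ih] at h1 h2 h5
      have h3 := ha (t m) (fun n hn => by
        have := h2 n hn
        omega) h1 (φ (t m) S'') ⟨S'', hS''.1, fun f hf n hn => by
        obtain ⟨b, hb, hbf⟩ := hgg (t m) f hf
        rw [← hbf, ← hhh b m n hn]
        have h4 := h2 n hn
        rcases lt_or_ge n N with h6 | h6
        · rw [hS''.2.1 n (by rw [hl₁]; exact h6), hs₁ n h6]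
          change hh b n ∈ (if n ∈ Used I φ S' j' ∨ n < p.len then S' n else
            if n < M then im p.F n else im F₁ n)
          rw [if_neg (by
            rintro (h7 | h7)
            · exact h5 n hn h7
            · omega), if_neg (by omega)]
          exact mem_im (hF b hb) n
        · exact hS''.2.2 _ (by rw [hF₁']; exact hF b hb) n (by rw [hl₁]; exact h6), rfl⟩
      change pre φ S'' (j' + m) ++ [φ (pre φ S'' (j' + m)) S''] = t m ++ [a (t m)]
      rw [ih, h3]
  refine hund ⟨q₁, hle, fun i => (t (i + 1)).getD i 0, fun S'' hS'' => funext fun i => ?_⟩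
  rw [← main S'' hS'' (i + 1), ← pre_eq, List.getD_eq_getElem _ _ (by
    rw [List.length_map, List.length_range]
    omega)]
  simp

theorem dig_congr2 (hφ : Reads2 I φ) {S S' : ℕ → Finset ℕ} (j : ℕ)
    (h : ∀ n ∈ Used I φ S j, S n = S' n) : ∀ i < j, dig φ S i = dig φ S' i := by
  refine px_inj ?_
  rw [pre_eq, pre_eq, pre_congr2 hφ j h]

theorem claimB1' (hI : ∀ s t, s <+: t → s ≠ t → Disjoint (I s) (I t)) (hφ : Reads2 I φ) (p : Cond)
    (hund : ¬ ∃ q, Cond.Le q p ∧ ∃ x : ℕ → ℕ, ∀ S, Thr q S → dig φ S = x)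
    (S : ℕ → Finset ℕ) (hS : Thr p S) (j : ℕ) :
    ∃ S', Thr p S' ∧ ∃ j', bits2 I φ (dig φ S') j' = bits2 I φ (dig φ S) j ∧
      NK2 I φ (pre φ S' j') (3 * (bits2 I φ (dig φ S) j).length) := by
  classical
  obtain ⟨S', h1, h2, i, hji, h4⟩ := claimA2 hI hφ p hund S hS j
    (3 * (bits2 I φ (dig φ S) j).length)
  have hex : ∃ i, j ≤ i ∧ NK2 I φ (pre φ S' i) (3 * (bits2 I φ (dig φ S) j).length) :=
    ⟨i, hji, h4⟩
  obtain ⟨i₀, hi₀⟩ : ∃ i₀, i₀ = Nat.find hex := ⟨_, rfl⟩
  have hspec := Nat.find_spec hex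
  rw [← hi₀] at hspec
  have hmin : ∀ l, l < i₀ → j ≤ l →
      ¬ NK2 I φ (pre φ S' l) (3 * (bits2 I φ (dig φ S) j).length) := by
    intro l hl hjl h5
    rw [hi₀] at hl
    exact Nat.find_min hex hl ⟨hjl, h5⟩
  have hbits : ∀ l, j ≤ l → l ≤ i₀ → bits2 I φ (dig φ S') l = bits2 I φ (dig φ S) j := by
    intro l hl
    induction l, hl using Nat.le_induction with
    | base =>
      intro _
      exact (bits2_congr j (dig_congr2 hφ j h2)).symm
    | succ l hl ih =>
      intro h5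
      have h6 := ih (by omega)
      rw [bits2, h6, pre_eq, if_neg (hmin l (by omega) hl)]
  exact ⟨S', h1, i₀, hbits i₀ hspec.1 le_rfl, hspec.2⟩

theorem claimB2' (hI : ∀ s t, s <+: t → s ≠ t → Disjoint (I s) (I t)) (hφ : Reads2 I φ) (p : Cond)
    (hund : ¬ ∃ q, Cond.Le q p ∧ ∃ x : ℕ → ℕ, ∀ S, Thr q S → dig φ S = x)
    (S : ℕ → Finset ℕ) (hS : Thr p S) (j : ℕ) (b : Bool) :
    ∃ S', Thr p S' ∧ ∃ j' b', bits2 I φ (dig φ S') j' = bits2 I φ (dig φ S) j ++ [b'] ∧
      (p.len ≤ (bits2 I φ (dig φ S) j).length → b' = b) := by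
  classical
  obtain ⟨S₁, h1, i, h4, h5⟩ := claimB1' hI hφ p hund S hS j
  by_cases h6 : p.len ≤ (bits2 I φ (dig φ S) j).length
  · obtain ⟨x, ⟨T, hT1, hT2, hT3⟩, hxb⟩ := chi2_spec _ _ h5 p.F (p.card_F.trans h6) b
    let S₂ : ℕ → Finset ℕ := fun n => if n ∈ I (pre φ S₁ i) then T n else S₁ n
    have hin : ∀ n ∈ I (pre φ S₁ i), S₂ n = T n := fun n hn => if_pos hn
    have hout : ∀ n, n ∉ I (pre φ S₁ i) → S₂ n = S₁ n := fun n hn => if_neg hn
    have hthr : Thr p S₂ := by
      refine ⟨fun n => ?_, fun n hn => ?_, fun y hy n hn => ?_⟩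
      · by_cases h : n ∈ I (pre φ S₁ i)
        · rw [hin n h]
          exact hT1 n
        · rw [hout n h]
          exact h1.1 n
      · rw [hout n fun h => ?_]
        · exact h1.2.1 n hn
        · have := h5.1 n h
          omega
      · by_cases h : n ∈ I (pre φ S₁ i)
        · rw [hin n h]
          exact hT2 y hy n h
        · rw [hout n h]
          exact h1.2.2 y hy n hn
    have hagr : ∀ n ∈ Used I φ S₁ i, S₁ n = S₂ n := by
      intro n hn
      exact (hout n fun h => disj_used hI S₁ le_rfl n h hn).symm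
    have e1 : bits2 I φ (dig φ S₂) i = bits2 I φ (dig φ S) j := by
      rw [← h4]
      exact (bits2_congr i (dig_congr2 hφ i hagr)).symm
    have e2 : pre φ S₂ i = pre φ S₁ i := (pre_congr2 hφ i hagr).symm
    have e3 : dig φ S₂ i = x := by
      unfold dig
      rw [e2, ← hT3]
      exact hφ _ _ _ fun n hn => hin n hn
    refine ⟨S₂, hthr, i + 1, b, ?_, fun _ => rfl⟩
    rw [bits2, e1, pre_eq, e2, if_pos h5, e3, hxb]
  · refine ⟨S₁, h1, i + 1, chi2 I φ (pre φ S₁ i) (bits2 I φ (dig φ S) j).length (dig φ S₁ i), ?_,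
      fun h => absurd h h6⟩
    rw [bits2, h4, pre_eq, if_pos h5]

/-- read-once procedures -/
theorem once (I : List ℕ → Finset ℕ) (hI : ∀ s t, s <+: t → s ≠ t → Disjoint (I s) (I t))
    (φ : List ℕ → (ℕ → Finset ℕ) → ℕ) (hφ : Reads2 I φ) :
    ∃ c : (ℕ → ℕ) → ℕ → Bool, Measurable c ∧ ∀ p : Cond,
      (∃ q, Cond.Le q p ∧ ∃ x : ℕ → ℕ, ∀ S, Thr q S → dig φ S = x) ∨
      ∀ D : Set (List Bool), (∀ τ, ∃ σ ∈ D, τ <+: σ) →
        ∃ q, Cond.Le q p ∧ ∃ σ ∈ D, ∃ s : List ℕ, (∀ S, Thr q S → pre φ S s.length = s) ∧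
          ∀ x : ℕ → ℕ, (List.range s.length).map x = s →
            ∀ (i : ℕ) (hi : i < σ.length), σ[i] = c x i := by
  refine ⟨coh2 I φ, coh2_meas I φ, fun p => ?_⟩
  by_cases hund : ∃ q, Cond.Le q p ∧ ∃ x : ℕ → ℕ, ∀ S, Thr q S → dig φ S = x
  · exact Or.inl hund
  right
  intro D hD
  have step1 : ∀ m, ∃ S, Thr p S ∧ ∃ j, m ≤ (bits2 I φ (dig φ S) j).length := by
    intro m
    induction m with
    | zero =>
      refine ⟨ex p, ⟨fun n => card_ex p n, fun n hn => if_pos hn, fun x hx n hn => ?_⟩, 0,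
        Nat.zero_le _⟩
      unfold ex
      rw [if_neg (not_lt.2 hn)]
      exact mem_im hx n
    | succ m ih =>
      obtain ⟨S, h1, j, h4⟩ := ih
      obtain ⟨S', h5, j', b', h8, -⟩ := claimB2' hI hφ p hund S h1 j true
      refine ⟨S', h5, j', ?_⟩
      rw [h8, List.length_append, List.length_singleton]
      omega
  have step2 : ∀ (γ β : List Bool) (S : ℕ → Finset ℕ) (j : ℕ), Thr p S →
      bits2 I φ (dig φ S) j = β → p.len ≤ β.length →
      ∃ S', Thr p S' ∧ ∃ j', bits2 I φ (dig φ S') j' = β ++ γ := by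
    intro γ
    induction γ with
    | nil =>
      intro β S j h1 h4 _
      exact ⟨S, h1, j, by rw [List.append_nil]; exact h4⟩
    | cons b γ ih =>
      intro β S j h1 h4 h5
      obtain ⟨S', h6, j', b', h9, h10⟩ := claimB2' hI hφ p hund S h1 j b
      rw [h4] at h9 h10
      rw [h10 h5] at h9
      obtain ⟨S'', a1, j'', a4⟩ := ih (β ++ [b]) S' j' h6 h9 (by
        rw [List.length_append]
        omega)
      refine ⟨S'', a1, j'', ?_⟩
      rw [a4, List.append_assoc]
      rfl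
  obtain ⟨S, h1, j, h4⟩ := step1 p.len
  obtain ⟨σ, hσD, γ, hγ⟩ := hD (bits2 I φ (dig φ S) j)
  obtain ⟨S', a1, j', a4⟩ := step2 γ _ S j h1 rfl h4
  rw [hγ] at a4
  obtain ⟨N, hN⟩ : ∃ N, N = p.len + (Used I φ S' j').sup id + 1 := ⟨_, rfl⟩
  have hUN : ∀ n ∈ Used I φ S' j', n < N := by
    intro n hn
    have := Finset.le_sup (f := id) hn
    simp only [id] at this
    omega
  refine ⟨mkC N S' p.F (fun n _ => a1.1 n) (p.card_F.trans (by omega)), ?_, σ, hσD,
    pre φ S' j', fun S'' hS'' => ?_, fun x hx i hi => ?_⟩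
  · exact mkC_le _ _ (by omega) (fun n hn => a1.2.1 n hn) (Finset.Subset.refl _)
      fun x hx n hn _ => a1.2.2 x hx n hn
  · rw [pre_length]
    refine (pre_congr2 hφ j' fun n hn => ?_).symm
    rw [hS''.2.1 n (hUN n hn)]
    change S' n = (if n < N then S' n else ∅)
    rw [if_pos (hUN n hn)]
  · rw [pre_length, ← pre_eq] at hx
    refine coh2_eq (j := j') ?_ i hi
    rw [bits2_congr j' (px_inj hx)]
    exact a4

end Pool.Agent.Helper71.LOC
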